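import Pool.Agent.X248.TS.Defs
import Pool.Agent.X248.DP.Main

/-!
# Total synchronization is in coNP
-/

set_option autoImplicit false

namespace Pool.Agent.X248.TS

open Pool.Agent.NPC Pool.Agent.H622R2
open Pool.Agent.X248.DP (poly_entry)

attribute [local fun_prop] poly_entry

/-- A set which can be merged pairwise can be merged. -/
theorem syncSet_of_pairs {V A : Type} [DecidableEq V] {δ : V → A → V} (q0 : V)
    (h : ∀ p q, Mg δ p q) (F : Finset V) : SyncSet δ F := by
  induction F using Finset.induction_on with
  | empty => exact ⟨[], q0, by simp⟩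
  | insert x F _ ih =>
    obtain ⟨u, q, hu⟩ := ih
    obtain ⟨z, hz⟩ := h (u.foldl δ x) q
    refine ⟨u ++ z, z.foldl δ q, fun v hv => ?_⟩
    rw [List.foldl_append]
    rcases Finset.mem_insert.1 hv with rfl | hv
    · exact hz
    · rw [hu v hv]

/-- Certificates that an automaton is not synchronizing. -/
theorem not_sync_iff {V A : Type} [Fintype V] {δ : V → A → V} (q0 : V) :
    ¬ Sync δ ↔ ∃ N : V → V → Prop, (∃ p q, N p q) ∧
      ∀ p q, N p q → p ≠ q ∧ ∀ a, N (δ p a) (δ q a) := by
  classical
  constructor
  · intro h
    refine ⟨fun p q => ¬ Mg δ p q, ?_, ?_⟩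
    · by_contra hcon
      push Not at hcon
      obtain ⟨w, q, hw⟩ := syncSet_of_pairs q0 hcon Finset.univ
      exact h ⟨w, q, fun v => hw v (Finset.mem_univ v)⟩
    · intro p q hpq
      refine ⟨?_, fun a ha => hpq (ha.step a)⟩
      rintro rfl
      exact hpq (Mg.refl δ p)
  · rintro ⟨N, ⟨p, q, hpq⟩, hN⟩ ⟨w, z, hw⟩
    have h1 : ∀ (w : List A) p q, N p q → N (w.foldl δ p) (w.foldl δ q) := by
      intro w
      induction w with
      | nil => exact fun p q h => h
      | cons a w ih => exact fun p q h => ih _ _ ((hN p q h).2 a)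
    exact (hN _ _ (h1 w p q hpq)).1 ((hw p).trans (hw q).symm)

/-- The degree. -/
def deg (G : List (List ℕ)) : ℕ := (G.headD []).length

/-- Is the list the description of an out-regular digraph of positive degree? -/
def validB (G : List (List ℕ)) : Bool :=
  decide (1 ≤ deg G) && G.all fun r => decide (r.length = deg G) && r.all fun v =>
    decide (v < G.length)

/-- The transition of the coloring `C`. -/
def st (G C : List (List ℕ)) (p a : ℕ) : ℕ := (G.getD p []).getD ((C.getD p []).getD a 0) 0

/-- The check that `C` is a coloring. -/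
def checkC (G C : List (List ℕ)) : Bool :=
  (List.range G.length).all fun p => (List.range (deg G)).all fun a =>
    decide ((C.getD p []).getD a 0 < deg G) && (List.range (deg G)).all fun b =>
      decide (a = b) || !decide ((C.getD p []).getD a 0 = (C.getD p []).getD b 0)

/-- The check that `N` is a certificate. -/
def checkN (G C : List (List ℕ)) (N : List (List Bool)) : Bool :=
  ((List.range G.length).any fun p => (List.range G.length).any fun q => entry N p q) &&
  (List.range G.length).all fun p => (List.range G.length).all fun q =>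
    !entry N p q || (!decide (p = q) && (List.range (deg G)).all fun a =>
      entry N (st G C p a) (st G C q a))

/-- The verifier. -/
def ver (x : List (List ℕ) × (List (List ℕ) × List (List Bool))) : Bool :=
  !validB x.1 || (checkC x.1 x.2.1 && checkN x.1 x.2.1 x.2.2)

theorem validB_iff (G : List (List ℕ)) :
    validB G = true ↔ 1 ≤ deg G ∧ OutReg (deg G) G := by
  unfold validB
  simp only [Bool.and_eq_true, decide_eq_true_eq, List.all_eq_true]
  exact and_congr_right fun _ => ⟨fun h => ⟨fun r hr => (h r hr).1, fun r hr => (h r hr).2⟩,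
    fun h r hr => ⟨h.len r hr, h.lt r hr⟩⟩

theorem totSync_valid {G : List (List ℕ)} (h : TotSync G) : validB G = true := by
  obtain ⟨k, hk, hr, hall⟩ := h
  obtain ⟨w, q, hw⟩ := hall fun _ => Equiv.refl _
  have hne : G ≠ [] := by
    rintro rfl
    exact absurd q.2 (by simp)
  have hd : deg G = k := by
    obtain ⟨r, G', rfl⟩ := List.exists_cons_of_ne_nil hne
    exact hr.len r (by simp)
  rw [validB_iff, hd]
  exact ⟨hk, hr⟩

theorem totSync_iff_valid {G : List (List ℕ)} (hk : 1 ≤ deg G) (h : OutReg (deg G) G) :
    TotSync G ↔ ∀ c : Fin G.length → Equiv.Perm (Fin (deg G)),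
      Sync (fun v a => head G h v (c v a)) := by
  constructor
  · rintro ⟨k, hk', hr, hall⟩
    have hne : G ≠ [] := by
      rintro rfl
      simp [deg] at hk
    have hd : deg G = k := by
      obtain ⟨r, G', rfl⟩ := List.exists_cons_of_ne_nil hne
      exact hr.len r (by simp)
    subst hd
    exact hall
  · intro hall
    exact ⟨_, hk, h, hall⟩

theorem checkC_iff (G C : List (List ℕ)) : checkC G C = true ↔
    ∀ p < G.length, ∀ a < deg G, (C.getD p []).getD a 0 < deg G ∧
      ∀ b < deg G, (C.getD p []).getD a 0 = (C.getD p []).getD b 0 → a = b := by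
  unfold checkC
  simp only [List.all_eq_true, List.mem_range, Bool.and_eq_true, decide_eq_true_eq,
    Bool.or_eq_true, Bool.not_eq_true', decide_eq_false_iff_not]
  refine forall_congr' fun p => forall_congr' fun _ => forall_congr' fun a =>
    forall_congr' fun _ => and_congr_right fun _ => forall_congr' fun b =>
    forall_congr' fun _ => ?_
  tauto

theorem checkN_iff (G C : List (List ℕ)) (N : List (List Bool)) : checkN G C N = true ↔
    (∃ p < G.length, ∃ q < G.length, entry N p q = true) ∧
    ∀ p < G.length, ∀ q < G.length, entry N p q = true → p ≠ q ∧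
      ∀ a < deg G, entry N (st G C p a) (st G C q a) = true := by
  unfold checkN
  simp only [List.all_eq_true, List.mem_range, Bool.and_eq_true, decide_eq_true_eq,
    Bool.or_eq_true, Bool.not_eq_true', decide_eq_false_iff_not, List.any_eq_true]
  refine and_congr_right fun _ => forall_congr' fun p => forall_congr' fun _ =>
    forall_congr' fun q => forall_congr' fun _ => ?_
  constructor
  · rintro (h | h) h'
    · rw [h'] at h
      exact absurd h (by simp)
    · exact h
  · intro h
    by_cases h' : entry N p q = true
    · exact Or.inr (h h')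
    · exact Or.inl (by simpa using h')

/-- The matrix of a function. -/
def mk {β : Type} (n k : ℕ) (f : ℕ → ℕ → β) : List (List β) :=
  (List.range n).map fun p => (List.range k).map fun a => f p a

theorem mk_getD {β : Type} (n k : ℕ) (f : ℕ → ℕ → β) (d : β) {p a : ℕ} (hp : p < n) (ha : a < k) :
    ((mk n k f).getD p []).getD a d = f p a := by
  unfold mk
  simp [List.getD_eq_getElem?_getD, hp, ha]

theorem sz_mk {β : Type} [TEnc β] (n k B : ℕ) (f : ℕ → ℕ → β)
    (h : ∀ p < n, ∀ a < k, sz (f p a) ≤ B) : sz (mk n k f) ≤ n * (k * (B + 1) + 2) + 1 := by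
  have h1 := sz_le_length_mul (mk n k f) (k * (B + 1) + 1) (by
    intro r hr
    unfold mk at hr
    obtain ⟨p, hp, rfl⟩ := List.mem_map.1 hr
    have h2 := sz_le_length_mul ((List.range k).map fun a => f p a) B (by
      intro x hx
      obtain ⟨a, ha, rfl⟩ := List.mem_map.1 hx
      exact h p (List.mem_range.1 hp) a (List.mem_range.1 ha))
    rwa [List.length_map, List.length_range] at h2)
  have h3 : (mk n k f).length = n := by simp [mk]
  rw [h3] at h1
  exact h1

/-- **Certificates.** -/
theorem not_totSync_iff (G : List (List ℕ)) :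
    ¬ TotSync G ↔ ∃ w : List (List ℕ) × List (List Bool),
      sz w ≤ (Polynomial.X * (Polynomial.X * (Polynomial.C 4 * Polynomial.X + Polynomial.C 2) +
        Polynomial.C 2) + Polynomial.X * (Polynomial.X * Polynomial.C 4 + Polynomial.C 2) +
          Polynomial.C 10 : Polynomial ℕ).eval (sz G) ∧ ver (G, w) = true := by
  classical
  constructor
  · intro hG
    by_cases hv : validB G = true
    · obtain ⟨hk, hr⟩ := (validB_iff G).1 hv
      rw [totSync_iff_valid hk hr] at hG
      push Not at hG
      obtain ⟨c, hc⟩ := hG
      have hne : G ≠ [] := by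
        rintro rfl
        simp [deg] at hk
      have hn : 0 < G.length := List.length_pos_iff.2 hne
      obtain ⟨N, ⟨p0, q0, hN0⟩, hN⟩ := (not_sync_iff ⟨0, hn⟩).1 hc
      let fC : ℕ → ℕ → ℕ := fun p a => if hp : p < G.length then
        if ha : a < deg G then (c ⟨p, hp⟩ ⟨a, ha⟩).1 else 0 else 0
      let fN : ℕ → ℕ → Bool := fun p q => if hp : p < G.length then
        if hq : q < G.length then decide (N ⟨p, hp⟩ ⟨q, hq⟩) else false else false
      have hfC : ∀ (p : Fin G.length) (a : Fin (deg G)), fC p a = (c p a).1 := by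
        intro p a
        simp [fC, p.2, a.2]
      have hfN : ∀ (p q : Fin G.length), fN p q = decide (N p q) := by
        intro p q
        simp [fN, p.2, q.2]
      have hC : ∀ (p : Fin G.length) (a : Fin (deg G)),
          ((mk G.length (deg G) fC).getD p.1 []).getD a.1 0 = (c p a).1 := by
        intro p a
        rw [mk_getD _ _ _ _ p.2 a.2, hfC]
      have hE : ∀ (p q : Fin G.length), entry (mk G.length G.length fN) p.1 q.1 =
          decide (N p q) := by
        intro p q
        unfold entry
        rw [mk_getD _ _ _ _ p.2 q.2, hfN]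
      have hst : ∀ (p : Fin G.length) (a : Fin (deg G)),
          st G (mk G.length (deg G) fC) p a = (head G hr p (c p a)).1 := by
        intro p a
        unfold st
        rw [hC]
        rfl
      refine ⟨(mk G.length (deg G) fC, mk G.length G.length fN), ?_, ?_⟩
      · have hdk : deg G < sz G := by
          obtain ⟨r, G', rfl⟩ := List.exists_cons_of_ne_nil hne
          have h1 := length_lt_sz r
          have h2 : sz r < sz (r :: G') := sz_le_of_mem (by simp)
          show r.length < _
          omega
        have hnk := length_lt_sz G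
        have h1 := sz_mk G.length (deg G) (4 * sz G + 1) fC (by
          intro p hp a ha
          have h2 : fC p a ≤ sz G := by
            rw [hfC ⟨p, hp⟩ ⟨a, ha⟩]
            have := (c ⟨p, hp⟩ ⟨a, ha⟩).2
            omega
          have h3 := sz_nat_le (fC p a)
          have h4 := NPC.Poly.size_le_self (fC p a)
          omega)
        have h2 := sz_mk G.length G.length 3 fN (fun p _ q _ => sz_bool_le _)
        have e1 : G.length * (deg G * (4 * sz G + 1 + 1) + 2) ≤
            sz G * (sz G * (4 * sz G + 2) + 2) := by
          refine Nat.mul_le_mul hnk.le ?_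
          have h7 : deg G * (4 * sz G + 1 + 1) ≤ sz G * (4 * sz G + 2) :=
            Nat.mul_le_mul hdk.le (le_refl (4 * sz G + 2))
          omega
        have e2 : G.length * (G.length * (3 + 1) + 2) ≤ sz G * (sz G * 4 + 2) := by
          refine Nat.mul_le_mul hnk.le ?_
          omega
        have h5 : sz (mk G.length (deg G) fC, mk G.length G.length fN) =
            sz (mk G.length (deg G) fC) + sz (mk G.length G.length fN) + 1 := by
          simp
        rw [h5]
        simp only [Polynomial.eval_add, Polynomial.eval_mul, Polynomial.eval_X, Polynomial.eval_C]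
        omega
      · unfold ver
        simp only [Bool.or_eq_true, Bool.and_eq_true]
        right
        rw [checkC_iff, checkN_iff]
        refine ⟨?_, ⟨p0.1, p0.2, q0.1, q0.2, ?_⟩, ?_⟩
        · intro p hp a ha
          rw [hC ⟨p, hp⟩ ⟨a, ha⟩]
          refine ⟨(c ⟨p, hp⟩ ⟨a, ha⟩).2, fun b hb hab => ?_⟩
          rw [hC ⟨p, hp⟩ ⟨b, hb⟩] at hab
          exact congrArg Fin.val ((c ⟨p, hp⟩).injective (Fin.ext hab))
        · rw [hE]
          exact decide_eq_true hN0
        · intro p hp q hq hpq
          rw [hE ⟨p, hp⟩ ⟨q, hq⟩, decide_eq_true_eq] at hpq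
          obtain ⟨h1, h2⟩ := hN _ _ hpq
          refine ⟨fun h => h1 (Fin.ext h), fun a ha => ?_⟩
          rw [hst ⟨p, hp⟩ ⟨a, ha⟩, hst ⟨q, hq⟩ ⟨a, ha⟩, hE]
          exact decide_eq_true (h2 ⟨a, ha⟩)
    · refine ⟨([], []), ?_, ?_⟩
      · simp only [Polynomial.eval_add, Polynomial.eval_mul, Polynomial.eval_X, Polynomial.eval_C]
        have : sz (([], []) : List (List ℕ) × List (List Bool)) = 3 := by simp
        omega
      · unfold ver
        simp only [Bool.or_eq_true]
        left
        simpa using hv
  · rintro ⟨⟨C, N⟩, _, hw⟩ hG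
    have hv := totSync_valid hG
    obtain ⟨hk, hr⟩ := (validB_iff G).1 hv
    rw [totSync_iff_valid hk hr] at hG
    unfold ver at hw
    rw [hv] at hw
    simp only [Bool.not_true, Bool.false_or, Bool.and_eq_true] at hw
    obtain ⟨hC, hN⟩ := hw
    rw [checkC_iff] at hC
    rw [checkN_iff] at hN
    obtain ⟨⟨p0, hp0, q0, hq0, hpq0⟩, hN⟩ := hN
    let c : Fin G.length → Equiv.Perm (Fin (deg G)) := fun p =>
      Equiv.ofBijective (fun a => ⟨(C.getD p.1 []).getD a.1 0, (hC p.1 p.2 a.1 a.2).1⟩)
        (Finite.injective_iff_bijective.1 (by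
          intro a b hab
          exact Fin.ext ((hC p.1 p.2 a.1 a.2).2 b.1 b.2 (congrArg Fin.val hab))))
    have hst : ∀ (p : Fin G.length) (a : Fin (deg G)),
        (head G hr p (c p a)).1 = st G C p a := fun p a => rfl
    refine absurd (hG c) ((not_sync_iff ⟨p0, hp0⟩).2 ⟨fun p q => entry N p.1 q.1 = true,
      ⟨⟨p0, hp0⟩, ⟨q0, hq0⟩, hpq0⟩, ?_⟩)
    intro p q hpq
    obtain ⟨h1, h2⟩ := hN p.1 p.2 q.1 q.2 hpq
    refine ⟨fun h => h1 (congrArg Fin.val h), fun a => ?_⟩
    show entry N (head G hr p (c p a)).1 (head G hr q (c q a)).1 = true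
    rw [hst, hst]
    exact h2 a.1 a.2

section PolyTime

variable {α : Type} [TEnc α]

theorem poly_deg {G : α → List (List ℕ)} (hG : Poly G) : Poly (fun a => deg (G a)) := by
  unfold deg
  have h : Poly (fun a => ((G a).getD 0 [])) := Poly.getD hG (NPC.Poly.const 0) (NPC.Poly.const [])
  exact (Poly.length h).congr fun a => by cases G a <;> rfl

attribute [local fun_prop] poly_deg

theorem upoly_deg {G : α → List (List ℕ)} (hG : Poly G) : UPoly (fun a => deg (G a)) := by
  unfold deg
  have h : Poly (fun a => ((G a).getD 0 [])) := Poly.getD hG (NPC.Poly.const 0) (NPC.Poly.const [])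
  have h2 := UPoly.length h
  have h3 : (fun a => (G a).headD [] |>.length) = fun a => ((G a).getD 0 []).length := by
    funext a
    cases G a <;> rfl
  rw [h3]
  exact h2

theorem poly_st {G C : α → List (List ℕ)} {p a : α → ℕ} (hG : Poly G) (hC : Poly C)
    (hp : Poly p) (ha : Poly a) : Poly (fun x => st (G x) (C x) (p x) (a x)) := by
  unfold st
  fun_prop

attribute [local fun_prop] poly_st

theorem poly_validB : Poly validB := by
  unfold validB
  refine Poly.and (by fun_prop) ?_
  refine Poly.all (p := fun (G : List (List ℕ)) (r : List ℕ) =>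
    decide (r.length = deg G) && r.all fun v => decide (v < G.length)) (by fun_prop) ?_
  refine Poly.and (by fun_prop) ?_
  exact Poly.all (p := fun (x : List (List ℕ) × List ℕ) v => decide (v < x.1.length))
    (by fun_prop) (by fun_prop)

theorem poly_checkC : Poly (fun x : List (List ℕ) × List (List ℕ) => checkC x.1 x.2) := by
  unfold checkC
  refine Poly.all (p := fun (x : List (List ℕ) × List (List ℕ)) p =>
    (List.range (deg x.1)).all fun a =>
    decide ((x.2.getD p []).getD a 0 < deg x.1) && (List.range (deg x.1)).all fun b =>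
      decide (a = b) || !decide ((x.2.getD p []).getD a 0 = (x.2.getD p []).getD b 0))
    (Poly.range_length (by fun_prop)) ?_
  refine Poly.all (p := fun (x : (List (List ℕ) × List (List ℕ)) × ℕ) a =>
    decide ((x.1.2.getD x.2 []).getD a 0 < deg x.1.1) && (List.range (deg x.1.1)).all fun b =>
      decide (a = b) || !decide ((x.1.2.getD x.2 []).getD a 0 = (x.1.2.getD x.2 []).getD b 0))
    (upoly_deg (by fun_prop)).range ?_
  refine Poly.and (by fun_prop) ?_
  exact Poly.all (p := fun (x : ((List (List ℕ) × List (List ℕ)) × ℕ) × ℕ) b =>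
      decide (x.2 = b) || !decide ((x.1.1.2.getD x.1.2 []).getD x.2 0 =
        (x.1.1.2.getD x.1.2 []).getD b 0))
    (upoly_deg (by fun_prop)).range (by fun_prop)

theorem poly_checkN : Poly (fun x : List (List ℕ) × (List (List ℕ) × List (List Bool)) =>
    checkN x.1 x.2.1 x.2.2) := by
  unfold checkN
  have hr : Poly (fun x : List (List ℕ) × (List (List ℕ) × List (List Bool)) =>
      List.range x.1.length) := Poly.range_length (by fun_prop)
  have hr2 : Poly (fun x : (List (List ℕ) × (List (List ℕ) × List (List Bool))) × ℕ =>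
      List.range x.1.1.length) := Poly.range_length (by fun_prop)
  refine Poly.and ?_ ?_
  · refine Poly.any (p := fun (x : List (List ℕ) × (List (List ℕ) × List (List Bool))) p =>
      (List.range x.1.length).any fun q => entry x.2.2 p q) hr ?_
    exact Poly.any (p := fun (x : (List (List ℕ) × (List (List ℕ) × List (List Bool))) × ℕ) q =>
      entry x.1.2.2 x.2 q) hr2 (by fun_prop)
  · refine Poly.all (p := fun (x : List (List ℕ) × (List (List ℕ) × List (List Bool))) p =>
      (List.range x.1.length).all fun q =>
        !entry x.2.2 p q || (!decide (p = q) && (List.range (deg x.1)).all fun a =>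
          entry x.2.2 (st x.1 x.2.1 p a) (st x.1 x.2.1 q a))) hr ?_
    refine Poly.all (p := fun (x : (List (List ℕ) × (List (List ℕ) × List (List Bool))) × ℕ) q =>
      !entry x.1.2.2 x.2 q || (!decide (x.2 = q) && (List.range (deg x.1.1)).all fun a =>
          entry x.1.2.2 (st x.1.1 x.1.2.1 x.2 a) (st x.1.1 x.1.2.1 q a))) hr2 ?_
    refine Poly.or (by fun_prop) (Poly.and (by fun_prop) ?_)
    exact Poly.all (p := fun (x : ((List (List ℕ) × (List (List ℕ) × List (List Bool))) × ℕ) × ℕ)
      a => entry x.1.1.2.2 (st x.1.1.1 x.1.1.2.1 x.1.2 a) (st x.1.1.1 x.1.1.2.1 x.2 a))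
      (upoly_deg (by fun_prop)).range (by fun_prop)

theorem poly_ver : Poly ver := by
  unfold ver
  exact Poly.or (Poly.not (poly_validB.comp (by fun_prop)))
    (Poly.and (poly_checkC.comp (f := fun x : List (List ℕ) × (List (List ℕ) × List (List Bool)) =>
      (x.1, x.2.1)) (by fun_prop)) poly_checkN)

end PolyTime

/-- **Total synchronization is in coNP.** -/
theorem inCoNPP_totSync : InCoNPP TotSync := inCoNPP_of poly_ver _ not_totSync_iff

end Pool.Agent.X248.TS
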