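import Pool.Agent.X248.TS.Core

/-!
# The digraph with three hubs: from a matching to a coloring
-/

set_option autoImplicit false

namespace Pool.Agent.X248.TS

/-- A function with prescribed numbers of values. -/
theorem exists_fun_counts {T : Type} [Fintype T] [DecidableEq T] {k : ℕ} (cnt : T → ℕ)
    (h : ∑ t, cnt t = k) : ∃ g : Fin k → T, ∀ t, (Finset.univ.filter fun a => g a = t).card =
      cnt t := by
  classical
  have hc : Fintype.card (Σ t : T, Fin (cnt t)) = Fintype.card (Fin k) := by
    rw [Fintype.card_sigma, Fintype.card_fin]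
    simp [h]
  let e : (Σ t : T, Fin (cnt t)) ≃ Fin k := Fintype.equivOfCardEq hc
  refine ⟨fun a => (e.symm a).1, fun t => ?_⟩
  rw [← Fintype.card_subtype]
  have e1 : {x : Σ t : T, Fin (cnt t) // x.1 = t} ≃ Fin (cnt t) :=
    { toFun := fun x => x.2 ▸ x.1.2
      invFun := fun a => ⟨⟨t, a⟩, rfl⟩
      left_inv := by rintro ⟨⟨T', a⟩, rfl⟩; rfl
      right_inv := fun a => rfl }
  have e2 : {a : Fin k // (e.symm a).1 = t} ≃ Fin (cnt t) :=
    (e.symm.subtypeEquiv fun _ => Iff.rfl).trans e1
  rw [Fintype.card_congr e2, Fintype.card_fin]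

/-- The permutations of three hubs. -/
def prm (t : Bool × Fin 3) (c : Fin 3) : Fin 3 := if t.1 then c + t.2 else t.2 - c

theorem prm_inj (t : Bool × Fin 3) : Function.Injective (prm t) := by
  revert t
  decide

section

variable {ι : Type} [Fintype ι] [DecidableEq ι]
variable {k n : ℕ} {cl : ι → Fin 3} {mu : ι → Fin 3 → ℕ}

/-- **From a matching to a non-synchronizing coloring.** -/
theorem exists_coloring (L : ℕ) (v : ι → ℤ) (hv : ∀ x, |v x| ≤ L)
    (hmu0 : ∀ x, (mu x 0 : ℤ) = 2 * L + v x) (hmu1 : ∀ x, (mu x 1 : ℤ) = 2 * L - v x)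
    (hmu2 : ∀ x, mu x 2 = 2 * L) (hk : k = 6 * L) (hP : Par k n cl mu) (hM : Mtch k cl mu) :
    ∃ δ : Fin 3 ⊕ ι → Fin k → Fin 3 ⊕ ι,
      (∀ v u, (Finset.univ.filter fun a => δ v a = u).card = mult k n cl mu v u) ∧
        ¬ Sync δ := by
  classical
  obtain ⟨J, _, f, hf1, hf2, hf3⟩ := hM
  -- sums are zero
  have hsum : ∀ j, v (f 0 j) + v (f 1 j) + v (f 2 j) = 0 := by
    intro j
    have h1 := hf3 j 0
    rw [Fin.sum_univ_three] at h1
    have h2 : ((mu (f 0 j) 0 + mu (f 1 j) 0 + mu (f 2 j) 0 : ℕ) : ℤ) = (k : ℤ) := by rw [h1]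
    push_cast at h2
    rw [hmu0, hmu0, hmu0, hk] at h2
    push_cast at h2
    linarith
  have hclf : ∀ c j, cl (f c j) = c := fun c j => (hf2 c _).1 ⟨j, rfl⟩
  -- the number of triples
  have hJ : Fintype.card J = n := by
    rw [← hP.cls 0, ← Finset.card_univ, ← Finset.card_image_of_injective _ (hf1 0)]
    congr 1
    ext x
    simp only [Finset.mem_image, Finset.mem_univ, true_and, Finset.mem_filter]
    exact hf2 0 x
  let e : J ≃ Fin n := Fintype.equivFinOfCardEq hJ
  -- the index of an item
  have hjx : ∀ x, ∃ j, f (cl x) j = x := fun x => (hf2 (cl x) x).2 rfl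
  choose jx hjx using hjx
  have hjf : ∀ c j, jx (f c j) = j := by
    intro c j
    have h1 := hjx (f c j)
    have h2 : cl (f c j) = c := hclf c j
    rw [h2] at h1
    exact hf1 c h1
  -- the permutations
  have hg : ∀ j, ∃ g : Fin k → Bool × Fin 3, ∀ c h,
      ((Finset.univ.filter fun a => prm (g a) c = h).card : ℤ) = mu (f c j) h := by
    intro j
    have b0 := abs_le.1 (hv (f 0 j))
    have b1 := abs_le.1 (hv (f 1 j))
    let cnt : Bool × Fin 3 → ℕ := fun t =>
      if t = (true, 0) then L
      else if t = (true, 1) then (L - v (f 0 j)).toNat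
      else if t = (true, 2) then (L + v (f 1 j)).toNat
      else if t = (false, 0) then (L + v (f 0 j)).toNat
      else if t = (false, 1) then L
      else (L - v (f 1 j)).toNat
    have c0 : cnt (true, 0) = L := rfl
    have c1 : (cnt (true, 1) : ℤ) = L - v (f 0 j) := by
      simp only [cnt, Prod.mk.injEq, Fin.reduceEq, and_false, if_false, if_true]
      exact Int.toNat_of_nonneg (by linarith)
    have c2 : (cnt (true, 2) : ℤ) = L + v (f 1 j) := by
      simp only [cnt, Prod.mk.injEq, Fin.reduceEq, and_false, if_false, if_true]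
      exact Int.toNat_of_nonneg (by linarith)
    have c3 : (cnt (false, 0) : ℤ) = L + v (f 0 j) := by
      simp only [cnt, Prod.mk.injEq, Fin.reduceEq, and_false, if_false, if_true,
        Bool.false_eq_true, false_and]
      exact Int.toNat_of_nonneg (by linarith)
    have c4 : cnt (false, 1) = L := rfl
    have c5 : (cnt (false, 2) : ℤ) = L - v (f 1 j) := by
      simp only [cnt, Prod.mk.injEq, Fin.reduceEq, and_false, if_false,
        Bool.false_eq_true, false_and]
      exact Int.toNat_of_nonneg (by linarith)
    have hexp : ∀ F : Bool × Fin 3 → ℕ, ∑ t, F t = F (true, 0) + F (true, 1) + F (true, 2) +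
        (F (false, 0) + F (false, 1) + F (false, 2)) := by
      intro F
      rw [Fintype.sum_prod_type, Fintype.sum_bool, Fin.sum_univ_three, Fin.sum_univ_three]
    have htot : ∑ t, cnt t = k := by
      rw [hexp, c0, c4]
      zify
      rw [c1, c2, c3, c5, hk]
      push_cast
      ring
    obtain ⟨g, hg⟩ := exists_fun_counts cnt htot
    refine ⟨g, fun c h => ?_⟩
    have h1 : (Finset.univ.filter fun a => prm (g a) c = h).card =
        ∑ t, if prm t c = h then cnt t else 0 := by
      rw [Finset.card_eq_sum_card_fiberwise (f := g) (t := Finset.univ)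
        (fun _ _ => Finset.mem_coe.2 (Finset.mem_univ _))]
      refine Finset.sum_congr rfl fun t _ => ?_
      rw [Finset.filter_filter]
      split_ifs with ht
      · rw [← hg t]
        congr 1
        ext a
        simp only [Finset.mem_filter, Finset.mem_univ, true_and]
        constructor
        · exact fun h => h.2
        · intro h
          exact ⟨by rw [h]; exact ht, h⟩
      · rw [Finset.card_eq_zero, Finset.filter_eq_empty_iff]
        rintro a _ ⟨h2, h3⟩
        exact ht (by rw [← h3]; exact h2)
    rw [h1, hexp]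
    have hs := hsum j
    have m1 : (-1 : Fin 3) = 2 := by decide
    have m2 : (-2 : Fin 3) = 1 := by decide
    fin_cases c <;> fin_cases h <;> simp [prm, m1, m2] <;>
      simp [hmu0, hmu1, hmu2, c0, c1, c2, c3, c4, c5] <;> linarith
  choose g hg using hg
  let δ : Fin 3 ⊕ ι → Fin k → Fin 3 ⊕ ι := fun p a => match p with
    | Sum.inl c => if h : a.1 < n then Sum.inr (f c (e.symm ⟨a.1, h⟩)) else Sum.inl c
    | Sum.inr x => Sum.inl (prm (g (jx x) a) (cl x))
  have hkn := hP.kn
  refine ⟨δ, ?_, ?_⟩
  · rintro (c | x) (c' | y)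
    · show (Finset.univ.filter fun a : Fin k => (if h : a.1 < n then
        (Sum.inr (f c (e.symm ⟨a.1, h⟩)) : Fin 3 ⊕ ι) else Sum.inl c) = Sum.inl c').card =
          if c = c' then k - n else 0
      split_ifs with hcc
      · have h1 : (Finset.univ.filter fun a : Fin k => (if h : a.1 < n then
            (Sum.inr (f c (e.symm ⟨a.1, h⟩)) : Fin 3 ⊕ ι) else Sum.inl c) = Sum.inl c') =
            Finset.univ.filter fun a : Fin k => ¬ a.1 < n := by
          ext a
          simp only [Finset.mem_filter, Finset.mem_univ, true_and]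
          by_cases h : a.1 < n
          · simp [h]
          · simp [h, hcc]
        rw [h1]
        have h2 := Finset.card_filter_add_card_filter_not (s := (Finset.univ : Finset (Fin k)))
          (fun a : Fin k => a.1 < n)
        have h3 : (Finset.univ.filter fun a : Fin k => a.1 < n).card = n := by
          rw [Fin.card_filter_val_lt]
          omega
        rw [Finset.card_univ, Fintype.card_fin] at h2
        omega
      · rw [Finset.card_eq_zero, Finset.filter_eq_empty_iff]
        intro a _ h
        by_cases h' : a.1 < n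
        · simp [h'] at h
        · simp [h', hcc] at h
    · show (Finset.univ.filter fun a : Fin k => (if h : a.1 < n then
        (Sum.inr (f c (e.symm ⟨a.1, h⟩)) : Fin 3 ⊕ ι) else Sum.inl c) = Sum.inr y).card =
          if cl y = c then 1 else 0
      split_ifs with hcc
      · have h0 : (e (jx y)).1 < k := by have := (e (jx y)).2; omega
        rw [Finset.card_eq_one]
        refine ⟨⟨(e (jx y)).1, h0⟩, ?_⟩
        ext a
        simp only [Finset.mem_filter, Finset.mem_univ, true_and, Finset.mem_singleton]
        constructor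
        · intro h
          by_cases h' : a.1 < n
          · simp only [h', dif_pos, Sum.inr.injEq] at h
            have h2 := hjf c (e.symm ⟨a.1, h'⟩)
            rw [h] at h2
            apply Fin.ext
            show a.1 = (e (jx y)).1
            rw [h2]
            simp
          · simp [h'] at h
        · rintro rfl
          have h' : (e (jx y)).1 < n := (e (jx y)).2
          simp only [h', dif_pos, Sum.inr.injEq, Fin.eta, Equiv.symm_apply_apply]
          rw [← hcc]
          exact hjx y
      · rw [Finset.card_eq_zero, Finset.filter_eq_empty_iff]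
        intro a _ h
        by_cases h' : a.1 < n
        · simp only [h', dif_pos, Sum.inr.injEq] at h
          exact hcc (by rw [← h]; exact hclf _ _)
        · simp [h'] at h
    · show (Finset.univ.filter fun a : Fin k =>
        (Sum.inl (prm (g (jx x) a) (cl x)) : Fin 3 ⊕ ι) = Sum.inl c').card = mu x c'
      have h1 := hg (jx x) (cl x) c'
      rw [hjx x] at h1
      have h2 : (Finset.univ.filter fun a : Fin k => prm (g (jx x) a) (cl x) = c').card =
        mu x c' := by exact_mod_cast h1
      rw [← h2]
      congr 1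
      ext a
      simp
    · show (Finset.univ.filter fun a : Fin k =>
        (Sum.inl (prm (g (jx x) a) (cl x)) : Fin 3 ⊕ ι) = Sum.inr y).card = 0
      simp
  · rintro ⟨w, q, hw⟩
    -- the invariant
    let Bad : Fin 3 ⊕ ι → Fin 3 ⊕ ι → Prop := fun p q =>
      (∃ c c', c ≠ c' ∧ p = Sum.inl c ∧ q = Sum.inl c') ∨
      (∃ c c' j, c ≠ c' ∧ p = Sum.inr (f c j) ∧ q = Sum.inr (f c' j))
    have hne : ∀ p q, Bad p q → p ≠ q := by
      rintro p q (⟨c, c', hcc, rfl, rfl⟩ | ⟨c, c', j, hcc, rfl, rfl⟩) h
      · exact hcc (Sum.inl_injective h)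
      · have h1 := congrArg cl (Sum.inr_injective h)
        rw [hclf, hclf] at h1
        exact hcc h1
    have hstep : ∀ p q a, Bad p q → Bad (δ p a) (δ q a) := by
      rintro p q a (⟨c, c', hcc, rfl, rfl⟩ | ⟨c, c', j, hcc, rfl, rfl⟩)
      · by_cases h : a.1 < n
        · right
          refine ⟨c, c', e.symm ⟨a.1, h⟩, hcc, ?_, ?_⟩ <;> simp [δ, h]
        · left
          refine ⟨c, c', hcc, ?_, ?_⟩ <;> simp [δ, h]
      · left
        refine ⟨prm (g j a) c, prm (g j a) c', fun h => hcc (prm_inj _ h), ?_, ?_⟩
        · simp only [δ]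
          rw [hjf, hclf]
        · simp only [δ]
          rw [hjf, hclf]
    have hword : ∀ (w : List (Fin k)) p q, Bad p q → Bad (w.foldl δ p) (w.foldl δ q) := by
      intro w
      induction w with
      | nil => exact fun p q h => h
      | cons a w ih => exact fun p q h => ih _ _ (hstep p q a h)
    have h1 := hword w (Sum.inl 0) (Sum.inl 1) (Or.inl ⟨0, 1, by decide, rfl, rfl⟩)
    exact hne _ _ h1 ((hw _).trans (hw _).symm)

end

end Pool.Agent.X248.TS
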