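import Pool.Agent.X248.TS.Weight

/-!
# The digraph with three hubs
-/

set_option autoImplicit false

namespace Pool.Agent.X248.TS

section

variable {ι : Type} [Fintype ι] [DecidableEq ι]

/-- The multiplicities of the edges of the digraph. -/
def mult (k n : ℕ) (cl : ι → Fin 3) (mu : ι → Fin 3 → ℕ) : Fin 3 ⊕ ι → Fin 3 ⊕ ι → ℕ
  | Sum.inl c, Sum.inl c' => if c = c' then k - n else 0
  | Sum.inl c, Sum.inr x => if cl x = c then 1 else 0
  | Sum.inr x, Sum.inl h => mu x h
  | Sum.inr _, Sum.inr _ => 0

/-- The conditions on the parameters. -/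
structure Par (k n : ℕ) (cl : ι → Fin 3) (mu : ι → Fin 3 → ℕ) : Prop where
  n1 : 1 ≤ n
  kn : 3 * n < k
  cls : ∀ c, (Finset.univ.filter fun x => cl x = c).card = n
  big : ∀ x h, n < mu x h
  row : ∀ x, ∑ h, mu x h = k

/-- A matching. -/
def Mtch (k : ℕ) (cl : ι → Fin 3) (mu : ι → Fin 3 → ℕ) : Prop :=
  ∃ (J : Type) (_ : Fintype J) (f : Fin 3 → J → ι), (∀ c, Function.Injective (f c)) ∧
    (∀ c x, (∃ j, f c j = x) ↔ cl x = c) ∧ ∀ j h, ∑ c, mu (f c j) h = k

variable {k n : ℕ} {cl : ι → Fin 3} {mu : ι → Fin 3 → ℕ} {δ : Fin 3 ⊕ ι → Fin k → Fin 3 ⊕ ι}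

/-- Two states can be merged. -/
def Mg {V A : Type} (δ : V → A → V) (p q : V) : Prop := ∃ u : List A, u.foldl δ p = u.foldl δ q

theorem Mg.step {V A : Type} {δ : V → A → V} {p q : V} (a : A) (h : Mg δ (δ p a) (δ q a)) :
    Mg δ p q := by
  obtain ⟨u, hu⟩ := h
  exact ⟨a :: u, hu⟩

theorem Mg.refl {V A : Type} (δ : V → A → V) (p : V) : Mg δ p p := ⟨[], rfl⟩

/-- **From a non-synchronizing coloring to a matching.** -/
theorem mtch_of_not_sync (hP : Par k n cl mu) (hst : ∀ h, ∑ x, mu x h = n * k)
    (hc : ∀ v u, (Finset.univ.filter fun a => δ v a = u).card = mult k n cl mu v u)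
    (hns : ¬ Sync δ) : Mtch k cl mu := by
  classical
  have hk : 0 < k := by have := hP.kn; omega
  haveI : Nonempty (Fin k) := ⟨⟨0, hk⟩⟩
  haveI : Nonempty (Fin 3 ⊕ ι) := ⟨Sum.inl 0⟩
  -- existence of edges
  have hex : ∀ v u, 0 < mult k n cl mu v u → ∃ a, δ v a = u := by
    intro v u h
    rw [← hc, Finset.card_pos] at h
    obtain ⟨a, ha⟩ := h
    exact ⟨a, (Finset.mem_filter.1 ha).2⟩
  have hno : ∀ v u a, mult k n cl mu v u = 0 → δ v a ≠ u := by
    intro v u a h h'
    rw [← hc, Finset.card_eq_zero] at h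
    have : a ∈ Finset.univ.filter fun a => δ v a = u := by simp [h']
    rw [h] at this
    simp at this
  have hmuk : ∀ x h, mu x h ≤ k := by
    intro x h
    rw [← hP.row x]
    exact Finset.single_le_sum (f := fun h => mu x h) (fun _ _ => Nat.zero_le _)
      (Finset.mem_univ h)
  -- weights
  let w : Fin 3 ⊕ ι → ℕ := fun v => match v with
    | Sum.inl _ => k
    | Sum.inr _ => 1
  have hw : ∀ u, ∑ v, w v * (Finset.univ.filter fun a => δ v a = u).card =
      Fintype.card (Fin k) * w u := by
    intro u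
    rw [Fintype.card_fin]
    simp_rw [hc]
    rw [Fintype.sum_sum_type]
    rcases u with h | x
    · have e1 : ∑ c : Fin 3, w (Sum.inl c) * mult k n cl mu (Sum.inl c) (Sum.inl h) =
          k * (k - n) := by
        simp only [w, mult, mul_ite, mul_zero, Finset.sum_ite_eq', Finset.mem_univ, if_true]
      have e2 : ∑ x : ι, w (Sum.inr x) * mult k n cl mu (Sum.inr x) (Sum.inl h) = n * k := by
        simp only [w, mult, one_mul]
        exact hst h
      rw [e1, e2]
      show k * (k - n) + n * k = k * k
      rw [mul_comm n k, ← mul_add]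
      have := hP.kn
      congr 1
      omega
    · have e1 : ∑ c : Fin 3, w (Sum.inl c) * mult k n cl mu (Sum.inl c) (Sum.inr x) = k := by
        simp only [w, mult, mul_ite, mul_zero, mul_one, Finset.sum_ite_eq, Finset.mem_univ,
          if_true]
      have e2 : ∑ y : ι, w (Sum.inr y) * mult k n cl mu (Sum.inr y) (Sum.inr x) = 0 := by
        simp only [mult, mul_zero, Finset.sum_const_zero]
      rw [e1, e2]
      show k + 0 = k * 1
      omega
  have hconn : ∀ p q : Fin 3 ⊕ ι, ∃ u : List (Fin k), u.foldl δ p = q := by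
    have t1 : ∀ p q : Fin 3 ⊕ ι, 0 < mult k n cl mu p q → ∃ u : List (Fin k), u.foldl δ p = q := by
      intro p q h
      obtain ⟨a, ha⟩ := hex p q h
      exact ⟨[a], ha⟩
    have t2 : ∀ p q r : Fin 3 ⊕ ι, (∃ u : List (Fin k), u.foldl δ p = q) →
        (∃ u : List (Fin k), u.foldl δ q = r) → ∃ u : List (Fin k), u.foldl δ p = r := by
      rintro p q r ⟨u, hu⟩ ⟨u', hu'⟩
      exact ⟨u ++ u', by rw [List.foldl_append, hu, hu']⟩
    have ih : ∀ x h, ∃ u : List (Fin k), u.foldl δ (Sum.inr x) = (Sum.inl h : Fin 3 ⊕ ι) := by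
      intro x h
      refine t1 _ _ ?_
      show 0 < mu x h
      have := hP.big x h
      omega
    have hi : ∀ x, ∃ u : List (Fin k), u.foldl δ (Sum.inl (cl x)) = (Sum.inr x : Fin 3 ⊕ ι) := by
      intro x
      refine t1 _ _ ?_
      simp [mult]
    have hh : ∀ p h, ∃ u : List (Fin k), u.foldl δ p = (Sum.inl h : Fin 3 ⊕ ι) := by
      rintro (c | x) h
      · have : (Finset.univ.filter fun x => cl x = c).Nonempty := by
          rw [← Finset.card_pos, hP.cls]
          exact hP.n1
        obtain ⟨x, hx⟩ := this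
        rw [Finset.mem_filter] at hx
        have h1 := hi x
        rw [hx.2] at h1
        exact t2 _ _ _ h1 (ih x h)
      · exact ih x h
    rintro p (h | x)
    · exact hh p h
    · exact t2 _ _ _ (hh p (cl x)) (hi x)
  have hpos : ∀ v, 0 < w v := by
    rintro (c | x)
    · exact hk
    · exact Nat.one_pos
  obtain ⟨r, M, hr, hrM, hM, hr1⟩ := weight_theorem hw hpos hconn
  have htot : ∑ v, w v = 3 * k + 3 * n := by
    rw [Fintype.sum_sum_type]
    have e1 : ∑ c : Fin 3, w (Sum.inl c) = 3 * k := by
      simp [w]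
    have e2 : ∑ x : ι, w (Sum.inr x) = 3 * n := by
      simp only [w, Finset.sum_const, smul_eq_mul, mul_one, Finset.card_univ]
      have h1 : (Finset.univ : Finset ι).card = ∑ c : Fin 3,
          (Finset.univ.filter fun x => cl x = c).card :=
        Finset.card_eq_sum_card_fiberwise (fun x _ => Finset.mem_univ (cl x))
      rw [← Finset.card_univ, h1]
      simp_rw [hP.cls]
      simp
    rw [e1, e2]
  have hM2 : M < 2 * k := by
    have hr2 : 2 ≤ r := by
      rcases Nat.lt_or_ge r 2 with h | h
      · exact absurd (hr1 (by omega)) hns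
      · exact h
    have h1 : 2 * M ≤ r * M := Nat.mul_le_mul_right M hr2
    have := hP.kn
    omega
  -- hubs cannot be merged
  have hhub : ∀ c c' : Fin 3, c ≠ c' → ¬ Mg δ (Sum.inl c) (Sum.inl c') := by
    rintro c c' hne ⟨u, hu⟩
    have h1 := hM {Sum.inl c, Sum.inl c'} ⟨u, u.foldl δ (Sum.inl c), by
      intro v hv
      simp only [Finset.mem_insert, Finset.mem_singleton] at hv
      rcases hv with rfl | rfl
      · rfl
      · exact hu.symm⟩
    rw [Finset.sum_pair (by simpa using hne)] at h1
    have h2 : w (Sum.inl c) = k := rfl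
    have h3 : w (Sum.inl c') = k := rfl
    omega
  -- a hub and an item can be merged
  have hhi : ∀ c x, Mg δ (Sum.inl c) (Sum.inr x) := by
    intro c x
    have : ∃ a, δ (Sum.inl c) a = Sum.inl c ∧ δ (Sum.inr x) a = Sum.inl c := by
      by_contra hcon
      push Not at hcon
      have hd : Disjoint (Finset.univ.filter fun a => δ (Sum.inl c) a = Sum.inl c)
          (Finset.univ.filter fun a => δ (Sum.inr x) a = Sum.inl c) := by
        rw [Finset.disjoint_left]
        intro a ha hb
        exact hcon a (Finset.mem_filter.1 ha).2 (Finset.mem_filter.1 hb).2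
      have h1 := Finset.card_union_of_disjoint hd
      have h2 := Finset.card_le_univ ((Finset.univ.filter fun a => δ (Sum.inl c) a = Sum.inl c) ∪
          (Finset.univ.filter fun a => δ (Sum.inr x) a = Sum.inl c))
      rw [h1, hc, hc, Fintype.card_fin] at h2
      have h3 : mult k n cl mu (Sum.inl c) (Sum.inl c) = k - n := by simp [mult]
      have h4 : mult k n cl mu (Sum.inr x) (Sum.inl c) = mu x c := rfl
      have h5 := hP.big x c
      have h6 := hP.kn
      omega
    obtain ⟨a, h1, h2⟩ := this
    refine Mg.step a ?_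
    rw [h1, h2]
    exact Mg.refl δ _
  -- the images of hubs
  have himg : ∀ c a, δ (Sum.inl c) a = Sum.inl c ∨ ∃ x, δ (Sum.inl c) a = Sum.inr x ∧ cl x = c := by
    intro c a
    rcases hu : δ (Sum.inl c) a with c' | x
    · left
      by_contra hne
      have : c ≠ c' := fun h => hne (by rw [h])
      exact hno (Sum.inl c) (Sum.inl c') a (by simp [mult, this]) hu
    · right
      refine ⟨x, rfl, ?_⟩
      by_contra hne
      exact hno (Sum.inl c) (Sum.inr x) a (by simp [mult, hne]) hu
  have hall : ∀ c c' a, δ (Sum.inl c) a = Sum.inl c → δ (Sum.inl c') a = Sum.inl c' := by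
    intro c c' a h
    rcases himg c' a with h1 | ⟨y, h1, hy⟩
    · exact h1
    · exfalso
      have hne : c ≠ c' := by
        rintro rfl
        rw [h] at h1
        exact absurd h1 (by simp)
      refine hhub c c' hne (Mg.step a ?_)
      rw [h, h1]
      exact hhi c y
  have hmove : ∀ (j : {a // δ (Sum.inl 0) a ≠ Sum.inl 0}) (c : Fin 3),
      ∃ x, δ (Sum.inl c) j.1 = Sum.inr x ∧ cl x = c := by
    intro j c
    rcases himg c j.1 with h | h
    · exact absurd (hall c 0 _ h) j.2
    · exact h
  choose f hf1 hf2 using hmove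
  refine ⟨{a // δ (Sum.inl 0) a ≠ Sum.inl 0}, inferInstance, fun c j => f j c, ?_, ?_, ?_⟩
  · intro c j j' h
    have h1 := hf1 j c
    have h2 := hf1 j' c
    have h0 : f j c = f j' c := h
    rw [← h0] at h2
    have h3 : (Finset.univ.filter fun a => δ (Sum.inl c) a = Sum.inr (f j c)).card ≤ 1 := by
      rw [hc]
      simp only [mult]
      split_ifs <;> omega
    exact Subtype.ext (Finset.card_le_one.1 h3 _ (by simp [h1]) _ (by simp [h2]))
  · intro c x
    constructor
    · rintro ⟨j, rfl⟩
      exact hf2 j c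
    · intro hx
      obtain ⟨a, ha⟩ := hex (Sum.inl c) (Sum.inr x) (by simp [mult, hx])
      have hne : δ (Sum.inl 0) a ≠ Sum.inl 0 := by
        intro h
        rw [hall 0 c a h] at ha
        exact absurd ha (by simp)
      exact ⟨⟨a, hne⟩, Sum.inr_injective ((hf1 ⟨a, hne⟩ c).symm.trans ha)⟩
  · intro j h
    have e1 : ∀ c, mu (f j c) h = (Finset.univ.filter fun a =>
        δ (Sum.inr (f j c)) a = Sum.inl h).card := by
      intro c
      rw [hc]
      rfl
    simp_rw [e1, Finset.card_filter]
    rw [Finset.sum_comm]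
    have e2 : ∀ a, ∑ c, (if δ (Sum.inr (f j c)) a = Sum.inl h then 1 else 0) = 1 := by
      intro a
      have hg : ∀ c, ∃ g, δ (Sum.inr (f j c)) a = Sum.inl g := by
        intro c
        rcases hu : δ (Sum.inr (f j c)) a with g | y
        · exact ⟨g, rfl⟩
        · exact absurd hu (hno _ _ a rfl)
      choose g hg using hg
      have hinj : Function.Injective g := by
        intro c c' hcc
        by_contra hne
        refine hhub c c' hne (Mg.step j.1 ?_)
        rw [hf1 j c, hf1 j c']
        refine Mg.step a ?_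
        rw [hg c, hg c', hcc]
        exact Mg.refl δ _
      have hsurj : Function.Surjective g := Finite.injective_iff_surjective.1 hinj
      obtain ⟨c0, hc0⟩ := hsurj h
      rw [Finset.sum_eq_single c0]
      · rw [hg c0, hc0]
        simp
      · intro c _ hcne
        rw [hg c]
        rw [if_neg]
        intro h'
        exact hcne (hinj ((Sum.inl_injective h').trans hc0.symm))
      · intro h'
        exact absurd (Finset.mem_univ _) h'
    simp_rw [e2]
    simp

end

end Pool.Agent.X248.TS
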