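import Pool.Agent.X248.TS.Conv

/-!
# Totally synchronizing digraphs given by lists
-/

set_option autoImplicit false

namespace Pool.Agent.X248.TS

/-- The list `G` describes a `k`-out-regular directed multigraph with vertices
`0, ..., G.length - 1`: the row of a vertex is the list of the heads of its `k` outgoing edges. -/
structure OutReg (k : ℕ) (G : List (List ℕ)) : Prop where
  len : ∀ r ∈ G, r.length = k
  lt : ∀ r ∈ G, ∀ v ∈ r, v < G.length

theorem OutReg.mem {k : ℕ} {G : List (List ℕ)} (v : Fin G.length) : G.getD v.1 [] ∈ G := by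
  rw [List.getD_eq_getElem?_getD, List.getElem?_eq_getElem v.2]
  exact List.getElem_mem _

theorem OutReg.head_lt {k : ℕ} {G : List (List ℕ)} (h : OutReg k G) (v : Fin G.length)
    (e : Fin k) : (G.getD v.1 []).getD e.1 0 < G.length := by
  have h1 := OutReg.mem (k := k) v
  have h2 : e.1 < (G.getD v.1 []).length := by
    rw [h.len _ h1]
    exact e.2
  rw [List.getD_eq_getElem?_getD, List.getElem?_eq_getElem h2]
  exact h.lt _ h1 _ (List.getElem_mem _)

/-- The head of the edge number `e` leaving the vertex `v`. -/
def head {k : ℕ} (G : List (List ℕ)) (h : OutReg k G) (v : Fin G.length) (e : Fin k) :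
    Fin G.length :=
  ⟨(G.getD v.1 []).getD e.1 0, h.head_lt v e⟩

/-- The digraph is totally synchronizing: for every coloring `c` (for every vertex `v` a bijection
`c v` from the `k` letters to the `k` edges leaving `v`) the automaton is synchronizing. -/
def TotSync (G : List (List ℕ)) : Prop :=
  ∃ k, 1 ≤ k ∧ ∃ h : OutReg k G, ∀ c : Fin G.length → Equiv.Perm (Fin k),
    Sync (fun v a => head G h v (c v a))

theorem card_getD (l : List ℕ) (u : ℕ) :
    (Finset.univ.filter fun e : Fin l.length => l.getD e.1 0 = u).card = l.count u := by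
  rw [Finset.card_filter]
  induction l with
  | nil => simp
  | cons a l ih =>
    rw [List.count_cons]
    show ∑ e : Fin (l.length + 1), _ = _
    rw [Fin.sum_univ_succ]
    simp only [Fin.val_zero, List.getD_cons_zero, Fin.val_succ, List.getD_cons_succ]
    rw [ih, add_comm]
    congr 1
    by_cases h : a = u
    · simp [h]
    · simp [h]

theorem card_getD' {k : ℕ} (l : List ℕ) (hl : l.length = k) (u : ℕ) :
    (Finset.univ.filter fun e : Fin k => l.getD e.1 0 = u).card = l.count u := by
  subst hl
  exact card_getD l u

/-- Two functions with the same numbers of values differ by a permutation. -/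
theorem exists_perm_of_counts {T : Type} [DecidableEq T] {k : ℕ} (f g : Fin k → T)
    (h : ∀ t, (Finset.univ.filter fun a => f a = t).card =
      (Finset.univ.filter fun a => g a = t).card) :
    ∃ σ : Equiv.Perm (Fin k), ∀ a, f a = g (σ a) := by
  have e : ∀ t, Nonempty ({a // f a = t} ≃ {a // g a = t}) := by
    intro t
    refine ⟨Fintype.equivOfCardEq ?_⟩
    rw [Fintype.card_subtype, Fintype.card_subtype]
    exact h t
  replace e := fun t => (e t).some
  refine ⟨((Equiv.sigmaFiberEquiv f).symm.trans (Equiv.sigmaCongrRight fun t => e t)).trans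
    (Equiv.sigmaFiberEquiv g), fun a => ?_⟩
  show f a = g (e (f a) ⟨a, rfl⟩).1
  exact (e (f a) ⟨a, rfl⟩).2.symm

theorem Sync.of_equiv {V V' A : Type} {δ : V → A → V} (φ : V' ≃ V)
    (h : Sync fun (p : V') (a : A) => φ.symm (δ (φ p) a)) : Sync δ := by
  obtain ⟨w, q, hw⟩ := h
  refine ⟨w, φ q, fun v => ?_⟩
  have h1 : ∀ (w : List A) (p : V'), w.foldl (fun (p : V') (a : A) => φ.symm (δ (φ p) a)) p =
      φ.symm (w.foldl δ (φ p)) := by
    intro w
    induction w with
    | nil => intro p; simp
    | cons a w ih =>
      intro p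
      rw [List.foldl_cons, ih]
      simp
  have h2 := hw (φ.symm v)
  rw [h1, φ.apply_symm_apply] at h2
  rw [← h2, φ.apply_symm_apply]

/-- **Transfer**: the total synchronization of a digraph with known multiplicities. -/
theorem totSync_iff {k : ℕ} {G : List (List ℕ)} (hk : 1 ≤ k) (h : OutReg k G) {V : Type}
    [Fintype V] [DecidableEq V] (φ : V ≃ Fin G.length) (mlt : V → V → ℕ)
    (hm : ∀ p q, (G.getD (φ p).1 []).count (φ q).1 = mlt p q) (hne : G ≠ []) :
    TotSync G ↔ ∀ δ : V → Fin k → V,
      (∀ v u, (Finset.univ.filter fun a => δ v a = u).card = mlt v u) → Sync δ := by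
  classical
  have hrow : ∀ v : Fin G.length, (G.getD v.1 []).length = k := fun v =>
    h.len _ (OutReg.mem (k := k) v)
  have hcnt : ∀ (v u : Fin G.length), (Finset.univ.filter fun e : Fin k => head G h v e = u).card =
      (G.getD v.1 []).count u.1 := by
    intro v u
    rw [← card_getD' _ (hrow v) u.1]
    congr 1
    ext e
    simp only [Finset.mem_filter, Finset.mem_univ, true_and]
    exact Fin.ext_iff
  constructor
  · rintro ⟨k', hk', h', hall⟩ δ hδ
    have hkk : k' = k := by
      obtain ⟨r, G', rfl⟩ := List.exists_cons_of_ne_nil hne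
      rw [← h.len r (by simp), ← h'.len r (by simp)]
    subst hkk
    have hex : ∀ v : Fin G.length, ∃ σ : Equiv.Perm (Fin k'), ∀ a,
        φ (δ (φ.symm v) a) = head G h v (σ a) := by
      intro v
      refine exists_perm_of_counts (fun a => φ (δ (φ.symm v) a)) (head G h v) fun u => ?_
      rw [hcnt]
      have h1 := hm (φ.symm v) (φ.symm u)
      rw [φ.apply_symm_apply, φ.apply_symm_apply] at h1
      rw [h1, ← hδ]
      congr 1
      ext a
      simp only [Finset.mem_filter, Finset.mem_univ, true_and]
      exact (Equiv.eq_symm_apply φ).symm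
    choose c hc using hex
    have h1 := hall c
    refine Sync.of_equiv φ.symm ?_
    convert h1 using 1
    funext v a
    exact hc v a
  · intro hall
    refine ⟨k, hk, h, fun c => ?_⟩
    refine Sync.of_equiv φ (hall _ fun v u => ?_)
    rw [← hm v u, ← hcnt]
    refine Finset.card_bij (fun a _ => c (φ v) a) ?_ ?_ ?_
    · intro a ha
      simp only [Finset.mem_filter, Finset.mem_univ, true_and] at ha ⊢
      exact (Equiv.symm_apply_eq φ).1 ha
    · intro a _ b _ hab
      exact (c (φ v)).injective hab
    · intro e he
      simp only [Finset.mem_filter, Finset.mem_univ, true_and] at he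
      refine ⟨(c (φ v)).symm e, ?_, by simp⟩
      simp only [Finset.mem_filter, Finset.mem_univ, true_and, Equiv.apply_symm_apply]
      exact (Equiv.symm_apply_eq φ).2 he

end Pool.Agent.X248.TS
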