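import Pool.Agent.X248.TS.Mat

/-!
# Matchings are exact covers
-/

set_option autoImplicit false

namespace Pool.Agent.X248.TS

open Pool.Agent.NPC Pool.Agent.NPC.H632 Pool.Agent.H557R2.Tri

variable {S : List (ℕ × ℕ × ℕ)} {q : ℕ}

/-- The sum is zero if there is an exact cover. -/
theorem tot_zero (h : Pr S q) (hx : X3C (S, q)) : tot S.length (EE S q) = 0 := by
  obtain ⟨π, hp, ho, hz⟩ := h.of_x3c hx
  unfold tot
  rw [← (hp.map (mn S.length)).sum_eq]
  clear hp ho
  induction π with
  | nil => simp
  | cons t π ih =>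
    rw [List.flatMap_cons, List.map_append, List.sum_append,
      ih (fun t' ht' => hz t' (List.mem_cons_of_mem _ ht')), add_zero]
    have := hz t (List.mem_cons_self ..)
    unfold ms at this
    simp only [el, List.map_cons, List.map_nil, List.sum_cons, List.sum_nil]
    linarith

/-- The component of a triple. -/
def cp (c : Fin 3) (t : Elt × Elt × Elt) : Elt := if c = 0 then t.1 else if c = 1 then t.2.1
  else t.2.2

theorem cp_mem (c : Fin 3) (t : Elt × Elt × Elt) : cp c t ∈ el t := by
  fin_cases c <;> simp [cp, el]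

theorem mem_el_iff (e : Elt) (t : Elt × Elt × Elt) : e ∈ el t ↔ ∃ c, cp c t = e := by
  constructor
  · intro h
    simp only [el, List.mem_cons, List.not_mem_nil, or_false] at h
    rcases h with h | h | h
    · exact ⟨0, h.symm⟩
    · exact ⟨1, h.symm⟩
    · exact ⟨2, h.symm⟩
  · rintro ⟨c, rfl⟩
    exact cp_mem c t

theorem ord_cp {t : Elt × Elt × Elt} (h : Ord t) (c : Fin 3) : (cp c t).1 = c.1 := by
  obtain ⟨h0, h1, h2⟩ := h
  fin_cases c
  · exact h0
  · exact h1
  · exact h2

theorem cls_iff (h : Pr S q) (t : Fin (EE S q).length) (c : Fin 3) :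
    cls (EE S q) t = c ↔ ((EE S q).getD t.1 (0, 0)).1 = c.1 := by
  have h1 := fst_lt h (getD_mem' t)
  unfold cls
  constructor
  · intro h2
    rw [← h2]
    simp only [Fin.val_ofNat]
    omega
  · intro h2
    rw [h2]
    apply Fin.ext
    simp only [Fin.val_ofNat]
    exact Nat.mod_eq_of_lt c.2

theorem getD_inj {E : List Elt} (hE : E.Nodup) {t t' : Fin E.length}
    (h : E.getD t.1 (0, 0) = E.getD t'.1 (0, 0)) : t = t' := by
  rw [List.getD_eq_getElem?_getD, List.getElem?_eq_getElem t.2, List.getD_eq_getElem?_getD,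
    List.getElem?_eq_getElem t'.2] at h
  exact Fin.ext ((List.Nodup.getElem_inj_iff hE).1 h)

theorem exists_idx {E : List Elt} {e : Elt} (he : e ∈ E) : ∃ t : Fin E.length,
    E.getD t.1 (0, 0) = e := by
  obtain ⟨i, hi, h⟩ := List.getElem_of_mem he
  refine ⟨⟨i, hi⟩, ?_⟩
  rw [List.getD_eq_getElem?_getD, List.getElem?_eq_getElem hi]
  exact h

/-- **Matchings are exact covers.** -/
theorem mtch_iff (h : Pr S q) :
    Mtch (6 * LL' S.length q) (fun t : Fin (EE S q).length => cls (EE S q) t)
      (fun t h => muE S.length q (EE S q) t h) ↔ X3C (S, q) := by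
  classical
  have hnd : (EE S q).Nodup := h.EE_nodup
  constructor
  · rintro ⟨J, _, f, hf1, hf2, hf3⟩
    have hcl : ∀ c j, cls (EE S q) (f c j) = c := fun c j => (hf2 c _).1 ⟨j, rfl⟩
    let tr : J → Elt × Elt × Elt := fun j => ((EE S q).getD (f 0 j) (0, 0),
      (EE S q).getD (f 1 j) (0, 0), (EE S q).getD (f 2 j) (0, 0))
    have htr : ∀ j c, cp c (tr j) = (EE S q).getD (f c j) (0, 0) := by
      intro j c
      fin_cases c <;> rfl
    refine h.to_x3c (π := (Finset.univ : Finset J).toList.map tr) ?_ ?_ ?_
    · rw [List.perm_ext_iff_of_nodup _ hnd]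
      · intro e
        simp only [List.mem_flatMap, List.mem_map, Finset.mem_toList, Finset.mem_univ, true_and,
          exists_exists_eq_and, mem_el_iff]
        constructor
        · rintro ⟨j, c, rfl⟩
          rw [htr]
          exact getD_mem' _
        · intro he
          obtain ⟨t, ht⟩ := exists_idx he
          obtain ⟨j, hj⟩ := (hf2 (cls (EE S q) t) t).2 rfl
          exact ⟨j, cls (EE S q) t, by rw [htr, hj, ht]⟩
      · rw [List.nodup_flatMap]
        constructor
        · intro t ht
          obtain ⟨j, _, rfl⟩ := List.mem_map.1 ht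
          have hne : ∀ c c' : Fin 3, c ≠ c' → cp c (tr j) ≠ cp c' (tr j) := by
            intro c c' hcc he
            rw [htr, htr] at he
            have h1 := getD_inj hnd he
            have h2 := hcl c j
            rw [h1, hcl c' j] at h2
            exact hcc h2.symm
          have e0 : el (tr j) = [cp 0 (tr j), cp 1 (tr j), cp 2 (tr j)] := rfl
          rw [e0]
          simp only [List.nodup_cons, List.mem_cons, List.not_mem_nil, or_false, not_or,
            not_false_eq_true, List.nodup_nil, and_true]
          exact ⟨⟨hne 0 1 (by decide), hne 0 2 (by decide)⟩, hne 1 2 (by decide)⟩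
        · rw [List.pairwise_map]
          refine (Finset.nodup_toList _).imp fun {j j'} hjj => ?_
          intro e he he'
          rw [mem_el_iff] at he he'
          obtain ⟨c, hc⟩ := he
          obtain ⟨c', hc'⟩ := he'
          rw [htr] at hc hc'
          have h1 := getD_inj hnd (hc.trans hc'.symm)
          have h2 := hcl c j
          rw [h1, hcl c' j'] at h2
          subst h2
          exact hjj (hf1 c' h1)
    · intro t ht
      obtain ⟨j, _, rfl⟩ := List.mem_map.1 ht
      exact ⟨(cls_iff h _ 0).1 (hcl 0 j), (cls_iff h _ 1).1 (hcl 1 j), (cls_iff h _ 2).1 (hcl 2 j)⟩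
    · intro t ht
      obtain ⟨j, _, rfl⟩ := List.mem_map.1 ht
      have h1 := hf3 j 0
      rw [Fin.sum_univ_three] at h1
      have h2 : ((muE S.length q (EE S q) (f 0 j) 0 + muE S.length q (EE S q) (f 1 j) 0 +
        muE S.length q (EE S q) (f 2 j) 0 : ℕ) : ℤ) = ((6 * LL' S.length q : ℕ) : ℤ) := by rw [h1]
      push_cast at h2
      rw [mu0 h, mu0 h, mu0 h] at h2
      show mn S.length _ + mn S.length _ + mn S.length _ = 0
      simp only [vl] at h2
      simp only [tr]
      linarith
  · intro hx
    obtain ⟨π, hp, ho, hz⟩ := h.of_x3c hx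
    have hmem : ∀ (j : Fin π.length) (c : Fin 3), ∃ t : Fin (EE S q).length,
        (EE S q).getD t.1 (0, 0) = cp c π[j.1] := by
      intro j c
      refine exists_idx (hp.mem_iff.1 (List.mem_flatMap.2 ⟨π[j.1], List.getElem_mem _, cp_mem c _⟩))
    choose f hf using hmem
    have hnd2 : (π.flatMap el).Nodup := hp.nodup_iff.2 hnd
    have hdis := (List.nodup_flatMap.1 hnd2).2
    rw [List.pairwise_iff_getElem] at hdis
    have huniq : ∀ (j j' : Fin π.length) (e : Elt), e ∈ el π[j.1] → e ∈ el π[j'.1] → j = j' := by
      intro j j' e he he'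
      rcases lt_trichotomy j.1 j'.1 with hlt | heq | hlt
      · exact absurd he' (hdis j.1 j'.1 j.2 j'.2 hlt he)
      · exact Fin.ext heq
      · exact absurd he (hdis j'.1 j.1 j'.2 j.2 hlt he')
    refine ⟨Fin π.length, inferInstance, fun c j => f j c, ?_, ?_, ?_⟩
    · intro c j j' hjj
      have h1 := hf j c
      have h2 := hf j' c
      have h3 : f j c = f j' c := hjj
      rw [h3] at h1
      refine huniq j j' (cp c π[j.1]) (cp_mem _ _) ?_
      rw [← h1, h2]
      exact cp_mem _ _
    · intro c x
      rw [cls_iff h]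
      constructor
      · rintro ⟨j, rfl⟩
        rw [hf j c]
        exact ord_cp (ho _ (List.getElem_mem _)) c
      · intro hx
        have h1 := hp.mem_iff.2 (getD_mem' x)
        obtain ⟨t, ht, he⟩ := List.mem_flatMap.1 h1
        obtain ⟨c', hc'⟩ := (mem_el_iff _ _).1 he
        have h2 := ord_cp (ho t ht) c'
        rw [hc', hx] at h2
        have h3 : c = c' := Fin.ext h2
        subst h3
        obtain ⟨j, hj, hjt⟩ := List.getElem_of_mem ht
        refine ⟨⟨j, hj⟩, getD_inj hnd ?_⟩
        rw [hf ⟨j, hj⟩ c, ← hc']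
        simp only [hjt]
    · intro j c
      have h1 := hz π[j.1] (List.getElem_mem _)
      unfold ms at h1
      have e : ∀ c, vl S.length (EE S q) (f j c) = mn S.length (cp c π[j.1]) := by
        intro c
        unfold vl
        rw [hf j c]
      have h2 : vl S.length (EE S q) (f j 0) + vl S.length (EE S q) (f j 1) +
          vl S.length (EE S q) (f j 2) = 0 := by
        rw [e, e, e]
        exact h1
      rw [Fin.sum_univ_three]
      zify
      fin_cases c
      · simp only [Fin.zero_eta, mu0 h]
        linarith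
      · simp only [Fin.mk_one, mu1 h]
        linarith
      · simp only [Fin.reduceFinMk, mu2]
        push_cast
        ring

end Pool.Agent.X248.TS
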