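import Pool.Agent.X248.TS.Defs
import Pool.Agent.H557R2.Tri.Main

/-!
# Matchings and exact covers
-/

set_option autoImplicit false

namespace Pool.Agent.X248.TS

open Pool.Agent.NPC Pool.Agent.NPC.H632 Pool.Agent.H557R2.Tri

/-- The bound for the numbers. -/
def Hn (m q : ℕ) : ℕ := 4 * ((m + 1) * (m + 1)) * (32 * (12 * q + 12) * (m + 2) + 1)

theorem Hn_eq (m q : ℕ) : (Hn m q : ℤ) = HH m q := by
  unfold Hn HH RR KK
  push_cast
  ring

/-- The number of an element. -/
def vl (m : ℕ) (E : List Elt) (t : ℕ) : ℤ := mn m (E.getD t (0, 0))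

/-- The class of an element. -/
def cls (E : List Elt) (t : ℕ) : Fin 3 := Fin.ofNat 3 (E.getD t (0, 0)).1

/-- The block size. -/
def LL' (m q : ℕ) : ℕ := Hn m q + 3 * m + 1

/-- The multiplicities of the edges from items to hubs. -/
def muE (m q : ℕ) (E : List Elt) (t : ℕ) (h : Fin 3) : ℕ :=
  if h = 0 then (2 * (LL' m q : ℤ) + vl m E t).toNat
  else if h = 1 then (2 * (LL' m q : ℤ) - vl m E t).toNat
  else 2 * LL' m q

variable {S : List (ℕ × ℕ × ℕ)} {q : ℕ}

theorem getD_mem' {E : List Elt} (t : Fin E.length) : E.getD t.1 (0, 0) ∈ E := by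
  rw [List.getD_eq_getElem?_getD, List.getElem?_eq_getElem t.2]
  exact List.getElem_mem _

theorem vl_abs (h : Pr S q) (t : Fin (EE S q).length) :
    |vl S.length (EE S q) t| ≤ Hn S.length q := by
  rw [Hn_eq]
  exact (Int.abs_ediv_le_abs _ (RR S.length)).trans (h.abs_le (getD_mem' t))

theorem fst_lt (h : Pr S q) {e : Elt} (he : e ∈ EE S q) : e.1 < 3 := by
  obtain ⟨i, hi, k, hk, rfl | rfl | rfl⟩ := mem_EE.1 he
  · simp [eA]
  · simp [eB]
  · simp [eC]

theorem ofNat_inj {a b : ℕ} (ha : a < 3) (hb : b < 3) (h : Fin.ofNat 3 a = Fin.ofNat 3 b) :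
    a = b := by
  have h1 := congrArg Fin.val h
  simp only [Fin.val_ofNat] at h1
  omega

theorem card_countP {α : Type} (d : α) (l : List α) (p : α → Bool) :
    (Finset.univ.filter fun e : Fin l.length => p (l.getD e.1 d) = true).card = l.countP p := by
  rw [Finset.card_filter]
  induction l with
  | nil => simp
  | cons a l ih =>
    rw [List.countP_cons]
    show ∑ e : Fin (l.length + 1), _ = _
    rw [Fin.sum_univ_succ]
    simp only [Fin.val_zero, List.getD_cons_zero, Fin.val_succ, List.getD_cons_succ]
    rw [ih, add_comm]

theorem countP_EE (c : ℕ) (hc : c < 3) : (EE S q).countP (fun e => decide (e.1 = c)) =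
    3 * S.length := by
  unfold EE
  rw [List.countP_flatMap]
  have h1 : ∀ i, ((fun i => List.countP (fun e : Elt => decide (e.1 = c))
      ((List.range 3).map (fun k => eA S q k i) ++
    ((List.range 3).map (fun k => eB S k i) ++ (List.range 3).map (fun k => eC S q k i))))) i =
      3 := by
    intro i
    simp only [List.countP_append, List.countP_map]
    have ha : List.countP ((fun e : Elt => decide (e.1 = c)) ∘ fun k => eA S q k i)
        (List.range 3) = if c = 0 then 3 else 0 := by
      split_ifs with h
      · subst h; rfl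
      · rw [List.countP_eq_zero]
        intro k _
        simp only [Function.comp_apply, eA, decide_eq_true_eq]
        exact fun h' => h h'.symm
    have hb : List.countP ((fun e : Elt => decide (e.1 = c)) ∘ fun k => eB S k i)
        (List.range 3) = if c = 1 then 3 else 0 := by
      split_ifs with h
      · subst h; rfl
      · rw [List.countP_eq_zero]
        intro k _
        simp only [Function.comp_apply, eB, decide_eq_true_eq]
        exact fun h' => h h'.symm
    have hcc : List.countP ((fun e : Elt => decide (e.1 = c)) ∘ fun k => eC S q k i)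
        (List.range 3) = if c = 2 then 3 else 0 := by
      split_ifs with h
      · subst h; rfl
      · rw [List.countP_eq_zero]
        intro k _
        simp only [Function.comp_apply, eC, decide_eq_true_eq]
        exact fun h' => h h'.symm
    rw [ha, hb, hcc]
    interval_cases c <;> rfl
  have h2 : ((List.countP fun e : Elt => decide (e.1 = c)) ∘ fun i =>
      (List.range 3).map (fun k => eA S q k i) ++ ((List.range 3).map (fun k => eB S k i) ++
        (List.range 3).map (fun k => eC S q k i))) = fun _ => 3 := funext h1
  rw [h2, List.map_const', List.sum_replicate, List.length_range, smul_eq_mul, mul_comm]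

theorem card_cls (h : Pr S q) (c : Fin 3) :
    (Finset.univ.filter fun t : Fin (EE S q).length => cls (EE S q) t = c).card =
      3 * S.length := by
  rw [← countP_EE (S := S) (q := q) c.1 c.2, ← card_countP (0, 0)]
  congr 1
  ext t
  simp only [Finset.mem_filter, Finset.mem_univ, true_and, decide_eq_true_eq]
  have h1 := fst_lt h (getD_mem' t)
  unfold cls
  constructor
  · intro h2
    rw [← h2]
    simp only [Fin.val_ofNat]
    omega
  · intro h2
    rw [h2]
    apply Fin.ext
    simp only [Fin.val_ofNat]
    exact Nat.mod_eq_of_lt c.2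

/-- The parameters satisfy the conditions. -/
theorem par_EE (h : Pr S q) : Par (6 * LL' S.length q) (3 * S.length)
    (fun t : Fin (EE S q).length => cls (EE S q) t)
    (fun t h => muE S.length q (EE S q) t h) := by
  have hm : 1 ≤ S.length := List.length_pos_iff.2 h.ne
  refine ⟨by omega, by unfold LL'; omega, card_cls h, ?_, ?_⟩
  · intro t c
    have h1 := abs_le.1 (vl_abs h t)
    have h2 : (LL' S.length q : ℤ) = Hn S.length q + 3 * S.length + 1 := by
      unfold LL'; push_cast; ring
    simp only [muE]
    split_ifs
    · omega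
    · omega
    · unfold LL'
      omega
  · intro t
    have h1 := abs_le.1 (vl_abs h t)
    have h2 : (LL' S.length q : ℤ) = Hn S.length q + 3 * S.length + 1 := by
      unfold LL'; push_cast; ring
    rw [Fin.sum_univ_three]
    simp only [muE, Fin.reduceEq, if_true, if_false]
    omega

theorem mu0 (h : Pr S q) (t : Fin (EE S q).length) : (muE S.length q (EE S q) t 0 : ℤ) =
    2 * LL' S.length q + vl S.length (EE S q) t := by
  have h1 := abs_le.1 (vl_abs h t)
  have h2 : (LL' S.length q : ℤ) = Hn S.length q + 3 * S.length + 1 := by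
    unfold LL'; push_cast; ring
  simp only [muE, if_true]
  exact Int.toNat_of_nonneg (by omega)

theorem mu1 (h : Pr S q) (t : Fin (EE S q).length) : (muE S.length q (EE S q) t 1 : ℤ) =
    2 * LL' S.length q - vl S.length (EE S q) t := by
  have h1 := abs_le.1 (vl_abs h t)
  have h2 : (LL' S.length q : ℤ) = Hn S.length q + 3 * S.length + 1 := by
    unfold LL'; push_cast; ring
  simp only [muE, Fin.reduceEq, if_true, if_false]
  exact Int.toNat_of_nonneg (by omega)

theorem mu2 (t : Fin (EE S q).length) : muE S.length q (EE S q) t 2 = 2 * LL' S.length q := by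
  simp only [muE, Fin.reduceEq, if_false]

/-- The total sum. -/
def tot (m : ℕ) (E : List Elt) : ℤ := (E.map (mn m)).sum

theorem tot_eq (m : ℕ) (E : List Elt) : ∑ t : Fin E.length, vl m E t = tot m E := by
  unfold tot vl
  induction E with
  | nil => simp
  | cons a E ih =>
    show ∑ t : Fin (E.length + 1), _ = _
    rw [Fin.sum_univ_succ]
    simp only [Fin.val_zero, List.getD_cons_zero, Fin.val_succ, List.getD_cons_succ]
    rw [ih]
    simp

/-- The stationarity. -/
theorem stat_EE (h : Pr S q) (h0 : tot S.length (EE S q) = 0) (c : Fin 3) :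
    ∑ t : Fin (EE S q).length, muE S.length q (EE S q) t c =
      3 * S.length * (6 * LL' S.length q) := by
  have hl : (EE S q).length = 9 * S.length := EE_length
  zify
  have h1 : ∀ t : Fin (EE S q).length, (muE S.length q (EE S q) t c : ℤ) =
      2 * LL' S.length q + (if c = 0 then 1 else if c = 1 then -1 else 0) *
        vl S.length (EE S q) t := by
    intro t
    fin_cases c
    · simp [mu0 h]
    · simp [mu1 h]
      ring
    · simp [mu2]
  rw [Finset.sum_congr rfl fun t _ => h1 t, Finset.sum_add_distrib,
    ← Finset.mul_sum (s := Finset.univ) (f := fun t : Fin (EE S q).length =>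
      vl S.length (EE S q) t), tot_eq, h0,
    Finset.sum_const, Finset.card_univ, Fintype.card_fin, hl]
  simp only [nsmul_eq_mul, mul_zero, add_zero]
  push_cast
  ring

end Pool.Agent.X248.TS
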