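import Pool.Agent.X248.TS.Red
import Pool.Agent.H557R2.Tri.Red

/-!
# The reduction is computable in polynomial time
-/

set_option autoImplicit false

namespace Pool.Agent.X248.TS

open Pool.Agent.NPC Pool.Agent.NPC.H632 Pool.Agent.H557R2.Tri

attribute [local fun_prop] Poly.iadd Poly.isub Poly.imul Poly.ineg Poly.toNat

abbrev Inst : Type := List (ℕ × ℕ × ℕ) × ℕ

section Gen

variable {α : Type} [TEnc α]

theorem poly_mn {m : α → ℕ} {e : α → Elt} (hm : Poly m) (he : Poly e) :
    Poly (fun a => mn (m a) (e a)) := by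
  have h : Poly (fun a => (e a).2 / ((4 * ((m a + 1) * (m a + 1)) : ℕ) : ℤ)) :=
    Poly.idiv (Poly.snd he) (by fun_prop)
  refine h.congr fun a => ?_
  unfold mn RR
  push_cast
  rfl

theorem upoly_Hn {m q : α → ℕ} (hm : UPoly m) (hq : UPoly q) : UPoly (fun a => Hn (m a) (q a)) := by
  unfold Hn
  exact UPoly.mul (UPoly.mul (UPoly.const 4) (UPoly.mul (UPoly.add hm (UPoly.const 1))
    (UPoly.add hm (UPoly.const 1)))) (UPoly.add (UPoly.mul (UPoly.mul (UPoly.const 32)
      (UPoly.add (UPoly.mul (UPoly.const 12) hq) (UPoly.const 12)))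
        (UPoly.add hm (UPoly.const 2))) (UPoly.const 1))

theorem upoly_LL {m q : α → ℕ} (hm : UPoly m) (hq : UPoly q) :
    UPoly (fun a => LL' (m a) (q a)) := by
  unfold LL'
  exact UPoly.add (UPoly.add (upoly_Hn hm hq) (UPoly.mul (UPoly.const 3) hm)) (UPoly.const 1)

theorem poly_rep {n : α → ℕ} (hn : UPoly n) (x : ℕ) : Poly (fun a => List.replicate (n a) x) := by
  have h : Poly (fun a => (List.replicate (n a) ()).map fun _ => x) :=
    NPC.Poly.map (F := fun _ _ => x) hn (NPC.Poly.const _)
  refine h.congr fun a => ?_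
  rw [List.map_replicate]

theorem poly_rep' {n x : α → ℕ} (hn : UPoly n) (hx : Poly x) :
    Poly (fun a => List.replicate (n a) (x a)) := by
  have h : Poly (fun a => (List.replicate (n a) ()).map fun _ => x a) :=
    NPC.Poly.map (F := fun a _ => x a) hn (hx.comp (by fun_prop))
  refine h.congr fun a => ?_
  rw [List.map_replicate]

theorem poly_vl {m : α → ℕ} {E : α → List Elt} {t : α → ℕ} (hm : Poly m) (hE : Poly E)
    (ht : Poly t) : Poly (fun a => vl (m a) (E a) (t a)) := by
  unfold vl
  exact poly_mn hm (Poly.getD hE ht (NPC.Poly.const (0, 0)))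

theorem poly_hubRow {m q : α → ℕ} {E : α → List Elt} {c : α → ℕ} (hm : UPoly m) (hq : UPoly q)
    (hE : Poly E) (hc : Poly c) : Poly (fun a => hubRow (m a) (q a) (E a) (c a)) := by
  unfold hubRow
  have h1 : Poly (fun a => (List.range (E a).length).filter fun t =>
      decide (((E a).getD t (0, 0)).1 = c a)) := by
    refine Poly.filter (p := fun a t => decide (((E a).getD t (0, 0)).1 = c a))
      (Poly.range_length hE) ?_
    have h2 : Poly (fun p : α × ℕ => (E p.1).getD p.2 (0, 0)) :=
      Poly.getD (hE.comp (by fun_prop)) (by fun_prop) (NPC.Poly.const (0, 0))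
    have h3 : Poly (fun p : α × ℕ => c p.1) := hc.comp (by fun_prop)
    exact Poly.decide_eq (Poly.fst h2) h3
  refine Poly.append (NPC.Poly.map (F := fun _ t => 3 + t) h1 (by fun_prop)) ?_
  refine poly_rep' ?_ hc
  exact UPoly.of_le (n := fun a => 6 * LL' (m a) (q a)) (by
    have h4 := (upoly_LL hm hq).toPoly
    have h5 := hm.toPoly
    fun_prop) (UPoly.mul (UPoly.const 6) (upoly_LL hm hq)) (fun a => Nat.sub_le _ _)

theorem poly_itemRow {m q : α → ℕ} {E : α → List Elt} {t : α → ℕ} (hm : UPoly m) (hq : UPoly q)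
    (hE : Poly E) (ht : Poly t) : Poly (fun a => itemRow (m a) (q a) (E a) (t a)) := by
  unfold itemRow
  have h1 := poly_vl hm.toPoly hE ht
  have h2 := upoly_LL hm hq
  have h3 := h2.toPoly
  have h6 : UPoly (fun a => 6 * LL' (m a) (q a)) := UPoly.mul (UPoly.const 6) h2
  refine Poly.append (Poly.append (poly_rep ?_ 0) (poly_rep ?_ 1)) (poly_rep
    (UPoly.mul (UPoly.const 2) h2) 2)
  · exact UPoly.of_le (by fun_prop) h6 (fun a => min_le_right _ _)
  · exact UPoly.of_le (by fun_prop) h6 (fun a => min_le_right _ _)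

theorem poly_gr {m q : α → ℕ} {E : α → List Elt} (hm : UPoly m) (hq : UPoly q)
    (hE : Poly E) : Poly (fun a => gr (m a) (q a) (E a)) := by
  unfold gr
  refine Poly.append ?_ ?_
  · refine NPC.Poly.map (F := fun a c => hubRow (m a) (q a) (E a) c) (NPC.Poly.const _) ?_
    exact poly_hubRow (UPoly.comp hm (by fun_prop)) (UPoly.comp hq (by fun_prop))
      (hE.comp (by fun_prop)) (by fun_prop)
  · refine NPC.Poly.map (F := fun a t => itemRow (m a) (q a) (E a) t) (Poly.range_length hE) ?_
    exact poly_itemRow (UPoly.comp hm (by fun_prop)) (UPoly.comp hq (by fun_prop))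
      (hE.comp (by fun_prop)) (by fun_prop)

theorem poly_tot {m : α → ℕ} {E : α → List Elt} (hm : Poly m) (hE : Poly E) :
    Poly (fun a => tot (m a) (E a)) := by
  unfold tot
  have h1 : Poly (fun a => (E a).map (mn (m a))) :=
    NPC.Poly.map (F := fun a e => mn (m a) e) hE (poly_mn (hm.comp (by fun_prop)) (by fun_prop))
  exact Poly.isum h1

end Gen

theorem red_poly : Poly red := by
  have hm : UPoly (fun I : Inst => I.1.length) := UPoly.length (by fun_prop)
  have hq : UPoly (fun I : Inst => min I.2 I.1.length) :=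
    UPoly.of_le (by fun_prop) hm (fun a => min_le_right _ _)
  have hq' := hq.toPoly
  have hE : Poly (fun I : Inst => EE I.1 (min I.2 I.1.length)) :=
    poly_EE.comp (f := fun I : Inst => (I.1, min I.2 I.1.length)) (by fun_prop)
  have h1 := poly_gr hm hq hE
  have h2 : Poly (fun I : Inst => decide (tot I.1.length (EE I.1 (min I.2 I.1.length)) = 0)) :=
    Poly.decide_eq (poly_tot hm.toPoly hE) (NPC.Poly.const _)
  exact Poly.ite h2 h1 (NPC.Poly.const _)

/-- Not being totally synchronizing is hard. -/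
theorem hardI_not_totSync : HardI (fun G : List (List ℕ) => ¬ TotSync G) :=
  (hardPr_X3Cr.trans (Pr' := fun _ => True) red_poly (fun _ _ => trivial)
    (fun _ h => red_correct h)).toHardI

end Pool.Agent.X248.TS
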