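import Pool.Agent.X248.TS.MX

/-!
# The reduction
-/

set_option autoImplicit false

namespace Pool.Agent.X248.TS

open Pool.Agent.NPC Pool.Agent.NPC.H632 Pool.Agent.H557R2.Tri

/-- The row of a hub. -/
def hubRow (m q : ℕ) (E : List Elt) (c : ℕ) : List ℕ :=
  ((List.range E.length).filter fun t => decide ((E.getD t (0, 0)).1 = c)).map (fun t => 3 + t) ++
    List.replicate (6 * LL' m q - 3 * m) c

/-- The row of an item (the minimum has no effect under the promise). -/
def itemRow (m q : ℕ) (E : List Elt) (t : ℕ) : List ℕ :=
  List.replicate (min (2 * (LL' m q : ℤ) + vl m E t).toNat (6 * LL' m q)) 0 ++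
    List.replicate (min (2 * (LL' m q : ℤ) - vl m E t).toNat (6 * LL' m q)) 1 ++
      List.replicate (2 * LL' m q) 2

/-- The digraph. -/
def gr (m q : ℕ) (E : List Elt) : List (List ℕ) :=
  (List.range 3).map (hubRow m q E) ++ (List.range E.length).map (itemRow m q E)

/-- The reduction. -/
def redJ (I : List (ℕ × ℕ × ℕ) × ℕ) : List (List ℕ) :=
  if tot I.1.length (EE I.1 I.2) = 0 then gr I.1.length I.2 (EE I.1 I.2) else [[0]]

/-- The reduction, with `q` bounded by the number of triples. -/
def red (I : List (ℕ × ℕ × ℕ) × ℕ) : List (List ℕ) := redJ (I.1, min I.2 I.1.length)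

theorem gr_length (m q : ℕ) (E : List Elt) : (gr m q E).length = 3 + E.length := by
  simp [gr]

/-- The vertices. -/
def vx (m q : ℕ) (E : List Elt) : Fin 3 ⊕ Fin E.length ≃ Fin (gr m q E).length :=
  finSumFinEquiv.trans (finCongr (gr_length m q E).symm)

theorem vx_inl (m q : ℕ) (E : List Elt) (c : Fin 3) : (vx m q E (Sum.inl c)).1 = c.1 := by
  simp [vx]

theorem vx_inr (m q : ℕ) (E : List Elt) (t : Fin E.length) :
    (vx m q E (Sum.inr t)).1 = 3 + t.1 := by
  simp [vx]

theorem gr_inl (m q : ℕ) (E : List Elt) (c : Fin 3) :
    (gr m q E).getD (vx m q E (Sum.inl c)).1 [] = hubRow m q E c.1 := by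
  rw [vx_inl]
  unfold gr
  rw [List.getD_append _ _ _ _ (by simpa using c.2)]
  rw [List.getD_eq_getElem?_getD]
  have : c.1 < 3 := c.2
  simp [this]

theorem gr_inr (m q : ℕ) (E : List Elt) (t : Fin E.length) :
    (gr m q E).getD (vx m q E (Sum.inr t)).1 [] = itemRow m q E t.1 := by
  rw [vx_inr]
  unfold gr
  rw [List.getD_append_right _ _ _ _ (by simp)]
  rw [List.getD_eq_getElem?_getD]
  simp [t.2]

variable {S : List (ℕ × ℕ × ℕ)} {q : ℕ}

theorem min_mu0 (h : Pr S q) (t : Fin (EE S q).length) :
    min (2 * (LL' S.length q : ℤ) + vl S.length (EE S q) t).toNat (6 * LL' S.length q) =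
      muE S.length q (EE S q) t 0 := by
  have h1 := abs_le.1 (vl_abs h t)
  have h2 : (LL' S.length q : ℤ) = Hn S.length q + 3 * S.length + 1 := by
    unfold LL'; push_cast; ring
  simp only [muE, if_true]
  rw [min_eq_left]
  omega

theorem min_mu1 (h : Pr S q) (t : Fin (EE S q).length) :
    min (2 * (LL' S.length q : ℤ) - vl S.length (EE S q) t).toNat (6 * LL' S.length q) =
      muE S.length q (EE S q) t 1 := by
  have h1 := abs_le.1 (vl_abs h t)
  have h2 : (LL' S.length q : ℤ) = Hn S.length q + 3 * S.length + 1 := by
    unfold LL'; push_cast; ring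
  simp only [muE, Fin.reduceEq, if_true, if_false]
  rw [min_eq_left]
  omega

theorem itemRow_eq (h : Pr S q) (t : Fin (EE S q).length) :
    itemRow S.length q (EE S q) t.1 =
      List.replicate (muE S.length q (EE S q) t 0) 0 ++
        List.replicate (muE S.length q (EE S q) t 1) 1 ++
          List.replicate (muE S.length q (EE S q) t 2) 2 := by
  unfold itemRow
  rw [min_mu0 h, min_mu1 h, mu2]

theorem count_rep (a b n : ℕ) : (List.replicate n a).count b = if a = b then n else 0 := by
  rw [List.count_replicate]
  by_cases h : a = b <;> simp [h]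

theorem count_gr (h : Pr S q) (p u : Fin 3 ⊕ Fin (EE S q).length) :
    ((gr S.length q (EE S q)).getD (vx S.length q (EE S q) p).1 []).count
      (vx S.length q (EE S q) u).1 =
    mult (6 * LL' S.length q) (3 * S.length) (fun t : Fin (EE S q).length => cls (EE S q) t)
      (fun t h => muE S.length q (EE S q) t h) p u := by
  rcases p with c | t
  · rw [gr_inl]
    unfold hubRow
    rw [List.count_append, count_rep]
    rcases u with c' | y
    · rw [vx_inl]
      have h1 : List.count c'.1 (((List.range (EE S q).length).filter fun t =>
          decide (((EE S q).getD t (0, 0)).1 = c.1)).map (fun t => 3 + t)) = 0 := by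
        rw [List.count_eq_zero]
        intro h2
        obtain ⟨t, _, ht⟩ := List.mem_map.1 h2
        have := c'.2
        omega
      rw [h1, zero_add]
      simp only [mult, Fin.ext_iff]
    · rw [vx_inr]
      have h1 : List.count (3 + y.1) (((List.range (EE S q).length).filter fun t =>
          decide (((EE S q).getD t (0, 0)).1 = c.1)).map (fun t => 3 + t)) =
          List.count y.1 ((List.range (EE S q).length).filter fun t =>
            decide (((EE S q).getD t (0, 0)).1 = c.1)) :=
        List.count_map_of_injective _ (fun t => 3 + t) (fun a b hab => by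
          simpa using hab) _
      rw [h1]
      have h2 : ¬ (c.1 = 3 + y.1) := by have := c.2; omega
      rw [if_neg h2, add_zero]
      simp only [mult]
      have hnd : ((List.range (EE S q).length).filter fun t =>
            decide (((EE S q).getD t (0, 0)).1 = c.1)).Nodup := List.nodup_range.filter _
      split_ifs with hc
      · rw [cls_iff h] at hc
        rw [List.count_eq_one_of_mem hnd]
        rw [List.mem_filter, List.mem_range, decide_eq_true_eq]
        exact ⟨y.2, hc⟩
      · rw [cls_iff h] at hc
        rw [List.count_eq_zero]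
        intro h3
        rw [List.mem_filter, decide_eq_true_eq] at h3
        exact hc h3.2
  · rw [gr_inr, itemRow_eq h, List.count_append, List.count_append, count_rep, count_rep,
      count_rep]
    rcases u with c' | y
    · rw [vx_inl]
      fin_cases c' <;> simp [mult]
    · rw [vx_inr]
      simp only [mult]
      rw [if_neg (by omega), if_neg (by omega), if_neg (by omega)]

theorem outReg (h : Pr S q) : OutReg (6 * LL' S.length q) (gr S.length q (EE S q)) := by
  have hP := par_EE h
  constructor
  · intro r hr
    rcases List.mem_append.1 hr with hr | hr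
    · obtain ⟨c, hc, rfl⟩ := List.mem_map.1 hr
      have hc' : c < 3 := List.mem_range.1 hc
      have h1 := hP.cls ⟨c, hc'⟩
      have h2 : ((List.range (EE S q).length).filter fun t =>
          decide (((EE S q).getD t (0, 0)).1 = c)).length = 3 * S.length := by
        rw [← h1, ← List.toFinset_card_of_nodup (List.nodup_range.filter _),
          ← Finset.card_map Fin.valEmbedding]
        congr 1
        ext x
        simp only [List.mem_toFinset, List.mem_filter, List.mem_range, decide_eq_true_eq,
          Finset.mem_map, Finset.mem_filter, Finset.mem_univ, true_and, Fin.valEmbedding_apply,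
          cls_iff h]
        constructor
        · rintro ⟨hx, hxc⟩
          exact ⟨⟨x, hx⟩, hxc, rfl⟩
        · rintro ⟨i, hi, rfl⟩
          exact ⟨i.2, hi⟩
      unfold hubRow
      rw [List.length_append, List.length_map, h2, List.length_replicate]
      have := hP.kn
      omega
    · obtain ⟨t, ht, rfl⟩ := List.mem_map.1 hr
      have ht' := List.mem_range.1 ht
      rw [itemRow_eq h ⟨t, ht'⟩]
      have h1 := hP.row ⟨t, ht'⟩
      rw [Fin.sum_univ_three, add_assoc] at h1
      simpa using h1
  · intro r hr v hv
    rw [gr_length]
    rcases List.mem_append.1 hr with hr | hr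
    · obtain ⟨c, hc, rfl⟩ := List.mem_map.1 hr
      have hc' : c < 3 := List.mem_range.1 hc
      rcases List.mem_append.1 hv with hv | hv
      · obtain ⟨t, ht, rfl⟩ := List.mem_map.1 hv
        have := List.mem_range.1 (List.mem_filter.1 ht).1
        omega
      · rw [List.eq_of_mem_replicate hv]
        omega
    · obtain ⟨t, ht, rfl⟩ := List.mem_map.1 hr
      rcases List.mem_append.1 hv with hv | hv
      · rcases List.mem_append.1 hv with hv | hv
        · rw [List.eq_of_mem_replicate hv]
          omega
        · rw [List.eq_of_mem_replicate hv]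
          omega
      · rw [List.eq_of_mem_replicate hv]
        omega

/-- **Correctness for the digraph.** -/
theorem gr_correct (h : Pr S q) (h0 : tot S.length (EE S q) = 0) :
    X3C (S, q) ↔ ¬ TotSync (gr S.length q (EE S q)) := by
  have hP := par_EE h
  have hk : 1 ≤ 6 * LL' S.length q := by unfold LL'; omega
  have hne : gr S.length q (EE S q) ≠ [] := by
    intro h1
    have := gr_length S.length q (EE S q)
    rw [h1] at this
    simp at this
    omega
  rw [totSync_iff hk (outReg h) (vx S.length q (EE S q)) _ (count_gr h) hne, ← mtch_iff h]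
  constructor
  · intro hM hall
    obtain ⟨δ, h1, h2⟩ := exists_coloring (LL' S.length q)
      (fun t : Fin (EE S q).length => vl S.length (EE S q) t) (fun t => by
        refine (vl_abs h t).trans ?_
        unfold LL'
        push_cast
        linarith) (mu0 h) (mu1 h) mu2 rfl hP hM
    exact h2 (hall δ h1)
  · intro hn
    push Not at hn
    obtain ⟨δ, h1, h2⟩ := hn
    exact mtch_of_not_sync hP (stat_EE h h0) h1 h2

theorem totSync_loop : TotSync [[0]] := by
  refine ⟨1, le_rfl, ⟨by simp, by simp⟩, fun c => ⟨[], 0, fun v => ?_⟩⟩
  have := v.2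
  apply Fin.ext
  simp only [List.length_cons, List.length_nil] at this
  show v.1 = 0
  omega

theorem q_le (h : Pr S q) : q ≤ S.length := by
  have h1 : List.range (3 * q) ⊆ S.flatMap el := by
    intro e he
    obtain ⟨t, ht, h2⟩ := h.occ e (List.mem_range.1 he)
    exact List.mem_flatMap.2 ⟨t, ht, h2⟩
  have h2 := (List.subperm_of_subset List.nodup_range h1).length_le
  rw [List.length_range] at h2
  have h3 : (S.flatMap el).length = 3 * S.length := by
    rw [List.length_flatMap]
    simp [el, mul_comm]
  omega

/-- **Correctness of the reduction.** -/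
theorem red_correct (h : Pr S q) : X3C (S, q) ↔ ¬ TotSync (red (S, q)) := by
  have hq : min q S.length = q := min_eq_left (q_le h)
  unfold red redJ
  simp only [hq]
  split_ifs with h0
  · exact gr_correct h h0
  · constructor
    · intro hx
      exact absurd (tot_zero h hx) h0
    · intro hn
      exact absurd totSync_loop hn

end Pool.Agent.X248.TS
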