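import Mathlib

/-!
# Synchronization and weights
-/

set_option autoImplicit false

namespace Pool.Agent.X248.TS

/-- The automaton is synchronizing: some word sends all states to one state. -/
def Sync {V A : Type} (δ : V → A → V) : Prop := ∃ (w : List A) (q : V), ∀ v, w.foldl δ v = q

section

variable {V A : Type} [Fintype V] [DecidableEq V] [Fintype A] (δ : V → A → V)

/-- The set is sent to one state by some word. -/
def SyncSet (F : Finset V) : Prop := ∃ (w : List A) (q : V), ∀ v ∈ F, w.foldl δ v = q

/-- The preimage under a word. -/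
def pre (F : Finset V) (w : List A) : Finset V := Finset.univ.filter fun v => w.foldl δ v ∈ F

theorem mem_pre {F : Finset V} {w : List A} {v : V} : v ∈ pre δ F w ↔ w.foldl δ v ∈ F := by
  simp [pre]

theorem SyncSet.pre {F : Finset V} (h : SyncSet δ F) (w : List A) : SyncSet δ (pre δ F w) := by
  obtain ⟨u, q, hu⟩ := h
  refine ⟨w ++ u, q, fun v hv => ?_⟩
  rw [List.foldl_append]
  exact hu _ ((mem_pre δ).1 hv)

theorem pre_cons (F : Finset V) (a : A) (w : List A) :
    pre δ F (a :: w) = pre δ (pre δ F w) [a] := by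
  ext v
  simp [mem_pre]

variable {δ} {w : V → ℕ}
  (hst : ∀ u, ∑ v, w v * (Finset.univ.filter fun a => δ v a = u).card = Fintype.card A * w u)

include hst in
theorem sum_pre (F : Finset V) :
    ∑ a, ∑ v ∈ pre δ F [a], w v = Fintype.card A * ∑ v ∈ F, w v := by
  have h1 : ∀ a, ∑ v ∈ pre δ F [a], w v = ∑ v, ∑ u ∈ F, if δ v a = u then w v else 0 := by
    intro a
    unfold pre
    rw [Finset.sum_filter]
    refine Finset.sum_congr rfl fun v _ => ?_
    rw [Finset.sum_ite_eq]
    rfl
  simp_rw [h1]
  rw [Finset.mul_sum]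
  rw [Finset.sum_comm]
  have h2 : ∀ v, ∑ a, ∑ u ∈ F, (if δ v a = u then w v else 0) =
      ∑ u ∈ F, w v * (Finset.univ.filter fun a => δ v a = u).card := by
    intro v
    rw [Finset.sum_comm]
    refine Finset.sum_congr rfl fun u _ => ?_
    rw [← Finset.sum_filter, Finset.sum_const, smul_eq_mul, mul_comm]
  simp_rw [h2]
  rw [Finset.sum_comm]
  exact Finset.sum_congr rfl fun u _ => hst u

include hst in
/-- **Friedman's weight theorem.** -/
theorem weight_theorem [Nonempty A] [Nonempty V] (hpos : ∀ v, 0 < w v)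
    (hconn : ∀ p q : V, ∃ u : List A, u.foldl δ p = q) :
    ∃ r M : ℕ, 0 < r ∧ r * M = ∑ v, w v ∧ (∀ F, SyncSet δ F → ∑ v ∈ F, w v ≤ M) ∧
      (r = 1 → Sync δ) := by
  classical
  -- the maximal weight
  obtain ⟨F, hF, hmax⟩ : ∃ F, SyncSet δ F ∧ ∀ F', SyncSet δ F' →
      ∑ v ∈ F', w v ≤ ∑ v ∈ F, w v := by
    obtain ⟨F, hF, hm⟩ := Finset.exists_max_image
      ((Finset.univ : Finset (Finset V)).filter fun F => SyncSet δ F) (fun F => ∑ v ∈ F, w v)
      ⟨∅, by
        simp only [Finset.mem_filter, Finset.mem_univ, true_and]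
        exact ⟨[], Classical.arbitrary V, by simp⟩⟩
    exact ⟨F, (Finset.mem_filter.1 hF).2, fun F' hF' => hm F' (by simpa using hF')⟩
  obtain ⟨M, hM⟩ : ∃ M, M = ∑ v ∈ F, w v := ⟨_, rfl⟩
  have hletter : ∀ F', SyncSet δ F' → ∑ v ∈ F', w v = M → ∀ a, ∑ v ∈ pre δ F' [a], w v = M := by
    intro F' hF' hw a
    have h1 := sum_pre hst F'
    rw [hw] at h1
    have h2 : ∀ b ∈ (Finset.univ : Finset A), ∑ v ∈ pre δ F' [b], w v ≤ M := fun b _ => by
      rw [hM]
      exact hmax _ (hF'.pre δ [b])
    have h3 : ∑ b : A, M = Fintype.card A * M := by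
      rw [Finset.sum_const, Finset.card_univ, smul_eq_mul]
    exact (Finset.sum_eq_sum_iff_of_le h2).1 (h1.trans h3.symm) a (Finset.mem_univ _)
  have hword : ∀ u : List A, ∑ v ∈ pre δ F u, w v = M := by
    intro u
    induction u with
    | nil =>
      rw [hM]
      congr 1
      ext v
      simp [mem_pre]
    | cons a u ih =>
      rw [pre_cons]
      exact hletter _ (hF.pre δ u) ih a
  have hMpos : 0 < M := by
    obtain ⟨v⟩ := ‹Nonempty V›
    have h1 := hmax {v} ⟨[], v, by simp⟩
    rw [Finset.sum_singleton] at h1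
    have := hpos v
    omega
  have hFne : F.Nonempty := by
    rw [Finset.nonempty_iff_ne_empty]
    rintro rfl
    simp at hM
    omega
  obtain ⟨f, hf⟩ := hFne
  -- a word of minimal rank
  obtain ⟨v, hv⟩ : ∃ v : List A, ∀ v' : List A,
      (Finset.univ.image fun x : V => v.foldl δ x).card ≤
        (Finset.univ.image fun x : V => v'.foldl δ x).card := by
    have := Function.argmin (fun v : List A => (Finset.univ.image fun x : V => v.foldl δ x).card)
    exact ⟨Function.argmin (fun v : List A => (Finset.univ.image fun x : V => v.foldl δ x).card),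
      fun v' => Function.argmin_le (fun v : List A =>
        (Finset.univ.image fun x : V => v.foldl δ x).card) v'⟩
  obtain ⟨I, hI⟩ : ∃ I, I = Finset.univ.image fun x : V => v.foldl δ x := ⟨_, rfl⟩
  have hinj : ∀ (z : List A) (p p' : V), p ∈ I → p' ∈ I → z.foldl δ p = z.foldl δ p' → p = p' := by
    intro z p p' hp hp' h
    by_contra hne
    have h1 := hv (v ++ z)
    rw [← hI] at h1
    have h2 : (Finset.univ.image fun x : V => (v ++ z).foldl δ x) =
        I.image fun x => z.foldl δ x := by
      rw [hI, Finset.image_image]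
      congr 1
      funext x
      simp [List.foldl_append]
    rw [h2] at h1
    have h3 : (I.image fun x => z.foldl δ x).card < I.card :=
      lt_of_le_of_ne Finset.card_image_le fun he => hne (Finset.card_image_iff.1 he hp hp' h)
    omega
  have hclass : ∀ p ∈ I, ∑ x ∈ Finset.univ.filter (fun x : V => v.foldl δ x = p), w x = M := by
    intro p hp
    obtain ⟨z, hz⟩ := hconn p f
    obtain ⟨u, q, hu⟩ := id hF
    have h1 : Finset.univ.filter (fun x : V => v.foldl δ x = p) = pre δ F (v ++ z) := by
      ext x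
      simp only [Finset.mem_filter, Finset.mem_univ, true_and, mem_pre, List.foldl_append]
      constructor
      · intro h
        rw [h, hz]
        exact hf
      · intro h
        have hx : v.foldl δ x ∈ I := by
          rw [hI]
          exact Finset.mem_image_of_mem _ (Finset.mem_univ _)
        refine hinj (z ++ u) _ _ hx hp ?_
        rw [List.foldl_append, List.foldl_append, hz, hu _ h, hu _ hf]
    rw [h1]
    exact hword _
  refine ⟨I.card, M, ?_, ?_, fun F' hF' => by rw [hM]; exact hmax F' hF', ?_⟩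
  · rw [Finset.card_pos, hI]
    exact Finset.univ_nonempty.image _
  · have h1 : ∑ x : V, w x = ∑ p ∈ I, ∑ x ∈ Finset.univ.filter (fun x : V => v.foldl δ x = p),
        w x := by
      rw [Finset.sum_fiberwise_of_maps_to]
      intro x _
      rw [hI]
      exact Finset.mem_image_of_mem _ (Finset.mem_univ _)
    rw [h1, Finset.sum_congr rfl hclass, Finset.sum_const, smul_eq_mul]
  · intro hr
    obtain ⟨q, hq⟩ := Finset.card_eq_one.1 hr
    refine ⟨v, q, fun x => ?_⟩
    have hx : v.foldl δ x ∈ I := by
      rw [hI]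
      exact Finset.mem_image_of_mem _ (Finset.mem_univ _)
    rw [hq] at hx
    exact Finset.mem_singleton.1 hx

end

end Pool.Agent.X248.TS
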